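import Mathlib.Analysis.InnerProductSpace.Basic
import Mathlib.Algebra.BigOperators.Fin
import Mathlib.Algebra.Order.BigOperators.Ring.Finset

/-! Sign energy: the abstract inequalities. -/

set_option autoImplicit false
set_option linter.unusedSectionVars false
open Finset

namespace Pool.Agent.MP_df75fe_nt.En

variable {ι H : Type} [Fintype ι] [DecidableEq ι] [NormedAddCommGroup H] [InnerProductSpace ℝ H]

/-- four different indices -/
def D4 (a a' c c' : ι) : Prop := a ≠ a' ∧ c ≠ c' ∧ a ≠ c ∧ a ≠ c' ∧ a' ≠ c ∧ a' ≠ c'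

instance (a a' c c' : ι) : Decidable (D4 a a' c c') := by unfold D4; infer_instance

/-- three different indices -/
def D3 (a a' c : ι) : Prop := a ≠ a' ∧ a ≠ c ∧ a' ≠ c

instance (a a' c : ι) : Decidable (D3 a a' c) := by unfold D3; infer_instance

/-- the data of the energy argument -/
structure Dat (z : ι → ι → ι → H) (u : ι → ι → ι → ι → ℝ) (l : ι → ι → ℝ) (κ : ℝ) : Prop where
  hκ : 0 ≤ κ
  nz : ∀ a a' c, inner ℝ (z a a' c) (z a a' c) ≤ l a a'
  z0 : ∀ a a' c, ¬ D3 a a' c → z a a' c = 0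
  u0 : ∀ a a' c c', 0 ≤ u a a' c c'
  u1 : ∀ a a' c c', ¬ D4 a a' c c' → u a a' c c' = 0
  id : ∀ a a' c c', D4 a a' c c' →
    |inner ℝ (z a a' c) (z a a' c') + inner ℝ (z c c' a) (z c c' a') + u a a' c c'| ≤ κ

variable {z : ι → ι → ι → H} {u : ι → ι → ι → ι → ℝ} {l : ι → ι → ℝ} {L κ : ℝ}

lemma Dat.point (h : Dat z u l κ) (a a' c c' : ι) {F : ℝ} (hF : |F| ≤ 1) :
    F * (inner ℝ (z a a' c) (z a a' c') + inner ℝ (z c c' a) (z c c' a') + u a a' c c') ≤
      (if c = c' ∧ D3 a a' c then l a a' else 0) + (if a = a' ∧ D3 c c' a then l c c' else 0) +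
        (if D4 a a' c c' then κ else 0) ∨
    (a ≠ a' ∧ c ≠ c' ∧ ¬ D4 a a' c c') := by
  have hF1 := abs_le.1 hF
  by_cases h4 : D4 a a' c c'
  · left
    have h1 := h.id a a' c c' h4
    rw [if_neg (fun e => h4.2.1 e.1), if_neg (fun e => h4.1 e.1), if_pos h4, zero_add, zero_add]
    calc _ ≤ |F * _| := le_abs_self _
      _ = |F| * |_| := abs_mul _ _
      _ ≤ 1 * κ := mul_le_mul hF h1 (abs_nonneg _) zero_le_one
      _ = κ := one_mul _
  · rw [if_neg h4, h.u1 _ _ _ _ h4]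
    by_cases hc : c = c'
    · left
      subst hc
      rw [h.z0 c c a (fun e => e.1 rfl), inner_zero_left, if_neg (fun e : a = a' ∧ D3 c c a => e.2.1 rfl)]
      by_cases h3 : D3 a a' c
      · rw [if_pos ⟨rfl, h3⟩]
        have h1 := h.nz a a' c
        have h2 : 0 ≤ inner ℝ (z a a' c) (z a a' c) := real_inner_self_nonneg
        nlinarith
      · rw [if_neg (fun e => h3 e.2), h.z0 a a' c h3, inner_zero_left]; simp
    · by_cases ha : a = a'
      · left
        subst ha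
        rw [h.z0 a a c (fun e => e.1 rfl), inner_zero_left, if_neg (fun e => hc e.1)]
        by_cases h3 : D3 c c' a
        · rw [if_pos ⟨rfl, h3⟩]
          have h1 := h.nz c c' a
          have h2 : 0 ≤ inner ℝ (z c c' a) (z c c' a) := real_inner_self_nonneg
          nlinarith
        · rw [if_neg (fun e => h3 e.2), h.z0 c c' a h3, inner_zero_left]; simp
      · right; exact ⟨ha, hc, h4⟩

/-- number of triples of different indices -/
def I3 (ι : Type) [Fintype ι] [DecidableEq ι] : ℝ := ∑ a : ι, ∑ a' : ι, ∑ c : ι, if D3 a a' c then 1 else 0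

/-- number of quadruples of different indices -/
def I4 (ι : Type) [Fintype ι] [DecidableEq ι] : ℝ :=
  ∑ a : ι, ∑ a' : ι, ∑ c : ι, ∑ c' : ι, if D4 a a' c c' then 1 else 0

lemma sum4_comm (f : ι → ι → ι → ι → ℝ) :
    ∑ a, ∑ a', ∑ c, ∑ c', f a a' c c' = ∑ c, ∑ c', ∑ a, ∑ a', f a a' c c' := by
  calc ∑ a, ∑ a', ∑ c, ∑ c', f a a' c c' = ∑ a, ∑ c, ∑ a', ∑ c', f a a' c c' :=
        sum_congr rfl fun a _ => sum_comm
    _ = ∑ c, ∑ a, ∑ a', ∑ c', f a a' c c' := sum_comm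
    _ = ∑ c, ∑ a, ∑ c', ∑ a', f a a' c c' :=
        sum_congr rfl fun c _ => sum_congr rfl fun a _ => sum_comm
    _ = ∑ c, ∑ c', ∑ a, ∑ a', f a a' c c' := sum_congr rfl fun c _ => sum_comm

/-- sum over triples of different indices -/
def J3 (l : ι → ι → ℝ) : ℝ := ∑ a, ∑ a', ∑ c, if D3 a a' c then l a a' else 0

lemma J3_le (hl : ∀ a a', l a a' ≤ L) : J3 l ≤ L * I3 ι := by
  unfold I3 J3
  simp only [mul_sum]
  exact sum_le_sum fun a _ => sum_le_sum fun a' _ => sum_le_sum fun c _ => by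
    split_ifs <;> simp [hl]

lemma sum_diag (l : ι → ι → ℝ) :
    ∑ a, ∑ a', ∑ c, ∑ c', (if c = c' ∧ D3 a a' c then l a a' else 0) = J3 l := by
  unfold J3
  refine sum_congr rfl fun a _ => sum_congr rfl fun a' _ => sum_congr rfl fun c _ => ?_
  by_cases h : D3 a a' c <;> simp [h]

lemma inner_sum_sum (f : ι → ℝ) (v : ι → H) :
    inner ℝ (∑ c, f c • v c) (∑ c, f c • v c) = ∑ c, ∑ c', f c * f c' * inner ℝ (v c) (v c') := by
  rw [sum_inner]
  refine sum_congr rfl fun c _ => ?_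
  rw [inner_sum]
  refine sum_congr rfl fun c' _ => ?_
  rw [real_inner_smul_left, real_inner_smul_right]; ring

/-- energy of a weight function -/
noncomputable def T (z : ι → ι → ι → H) (g : ι → ι → ℝ) : ℝ :=
  ∑ a, ∑ a', inner ℝ (∑ c, (g a c * g a' c) • z a a' c) (∑ c, (g a c * g a' c) • z a a' c)

lemma T_nonneg (g : ι → ι → ℝ) : 0 ≤ T z g :=
  sum_nonneg fun _ _ => sum_nonneg fun _ _ => real_inner_self_nonneg

lemma abs_mul_le_one {x y : ℝ} (hx : |x| ≤ 1) (hy : |y| ≤ 1) : |x * y| ≤ 1 := by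
  rw [abs_mul]; exact mul_le_one₀ hx (abs_nonneg _) hy

lemma Dat.energy (h : Dat z u l κ) (g : ι → ι → ℝ) (hg : ∀ a c, |g a c| ≤ 1) (g0 : ∀ a, g a a = 0) :
    T z g + T z (fun c a => g a c) +
      ∑ a, ∑ a', ∑ c, ∑ c', (g a c * g a' c) * (g a c' * g a' c') * u a a' c c' ≤
      2 * J3 l + κ * I4 ι := by
  have e1 : T z g = ∑ a, ∑ a', ∑ c, ∑ c',
      (g a c * g a' c) * (g a c' * g a' c') * inner ℝ (z a a' c) (z a a' c') := by
    unfold T; simp only [inner_sum_sum]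
  have e2 : T z (fun c a => g a c) = ∑ a, ∑ a', ∑ c, ∑ c',
      (g a c * g a' c) * (g a c' * g a' c') * inner ℝ (z c c' a) (z c c' a') := by
    unfold T; simp only [inner_sum_sum]
    rw [sum4_comm]
    refine sum_congr rfl fun _ _ => sum_congr rfl fun _ _ => sum_congr rfl fun _ _ =>
      sum_congr rfl fun _ _ => by ring
  have e3 : 2 * J3 l + κ * I4 ι = ∑ a : ι, ∑ a' : ι, ∑ c : ι, ∑ c' : ι,
      ((if c = c' ∧ D3 a a' c then l a a' else 0) + (if a = a' ∧ D3 c c' a then l c c' else 0) +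
        (if D4 a a' c c' then κ else 0)) := by
    simp only [sum_add_distrib]
    rw [sum_diag, sum4_comm (fun a a' c c' : ι => if a = a' ∧ D3 c c' a then l c c' else 0), sum_diag]
    have : κ * I4 ι = ∑ a : ι, ∑ a' : ι, ∑ c : ι, ∑ c' : ι, (if D4 a a' c c' then κ else 0) := by
      unfold I4; simp only [mul_sum, mul_ite, mul_one, mul_zero]
    rw [this]; ring
  rw [e1, e2, e3]
  simp only [← sum_add_distrib]
  refine sum_le_sum fun a _ => sum_le_sum fun a' _ => sum_le_sum fun c _ => sum_le_sum fun c' _ => ?_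
  rcases h.point a a' c c' (abs_mul_le_one (abs_mul_le_one (hg a c) (hg a' c))
    (abs_mul_le_one (hg a c') (hg a' c'))) with h1 | ⟨ha, hc, h4⟩
  · linarith
  · have : (g a c * g a' c) * (g a c' * g a' c') = 0 := by
      by_contra hne
      refine h4 ⟨ha, hc, ?_, ?_, ?_, ?_⟩ <;> rintro rfl <;> simp [g0] at hne
    rw [this, if_neg (fun e => hc e.1), if_neg (fun e => ha e.1), if_neg h4]; simp

lemma Dat.sum_u (h : Dat z u l κ) :
    ∑ a, ∑ a', ∑ c, ∑ c', u a a' c c' ≤ 2 * J3 l + κ * I4 ι := by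
  have h1 := h.energy (fun a c => if a = c then 0 else 1) (fun a c => by split_ifs <;> simp)
    (fun a => if_pos rfl)
  have h2 := T_nonneg (z := z) (fun a c : ι => if a = c then (0 : ℝ) else 1)
  have h3 := T_nonneg (z := z) (fun c a : ι => if a = c then (0 : ℝ) else 1)
  have h4 : ∑ a, ∑ a', ∑ c, ∑ c', u a a' c c' = ∑ a, ∑ a', ∑ c, ∑ c',
      ((if a = c then 0 else 1) * (if a' = c then 0 else 1)) *
        ((if a = c' then 0 else 1) * (if a' = c' then 0 else 1)) * u a a' c c' := by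
    refine sum_congr rfl fun a _ => sum_congr rfl fun a' _ => sum_congr rfl fun c _ =>
      sum_congr rfl fun c' _ => ?_
    by_cases h4 : D4 a a' c c'
    · obtain ⟨-, -, e1, e2, e3, e4⟩ := h4
      simp [e1, e2, e3, e4]
    · simp [h.u1 _ _ _ _ h4]
  rw [h4]; linarith

lemma Dat.T_le (h : Dat z u l κ) (g : ι → ι → ℝ) (hg : ∀ a c, |g a c| ≤ 1) (g0 : ∀ a, g a a = 0) :
    T z (fun c a => g a c) ≤ 2 * (2 * J3 l + κ * I4 ι) := by
  have h1 := h.energy g hg g0
  have h2 := h.sum_u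
  have h3 := T_nonneg (z := z) g
  have h4 : -∑ a, ∑ a', ∑ c, ∑ c', u a a' c c' ≤
      ∑ a, ∑ a', ∑ c, ∑ c', (g a c * g a' c) * (g a c' * g a' c') * u a a' c c' := by
    simp only [← sum_neg_distrib]
    refine sum_le_sum fun a _ => sum_le_sum fun a' _ => sum_le_sum fun c _ =>
      sum_le_sum fun c' _ => ?_
    have := (abs_le.1 (abs_mul_le_one (abs_mul_le_one (hg a c) (hg a' c))
      (abs_mul_le_one (hg a c') (hg a' c')))).1
    have := h.u0 a a' c c'
    nlinarith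
  linarith

lemma neg_inner_le (x y : H) {t : ℝ} (ht : 0 < t) :
    -inner ℝ x y ≤ (t * inner ℝ x x + inner ℝ y y / t) / 2 := by
  have h : 0 ≤ inner ℝ (t • x + y) (t • x + y) := real_inner_self_nonneg
  rw [inner_add_left, inner_add_right, inner_add_right, real_inner_smul_left, real_inner_smul_left,
    real_inner_smul_right, real_inner_smul_right, real_inner_comm x y] at h
  rw [le_div_iff₀ (by norm_num), ← sub_nonneg]
  have e : t * inner ℝ x x + inner ℝ y y / t - -inner ℝ x y * 2 =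
      (t * (t * inner ℝ x x) + t * inner ℝ x y + (t * inner ℝ x y + inner ℝ y y)) / t := by
    field_simp; ring
  rw [e, real_inner_comm y x] at *
  positivity

lemma Dat.star (h : Dat z u l κ) (hL : 0 ≤ L) (hl : ∀ a a', l a a' ≤ L) (b : ι) (g : ι → ι → ℝ) (hg : ∀ a c, |g a c| ≤ 1)
    (g0 : ∀ a c, ¬ D3 b a c → g a c = 0) {t : ℝ} (ht : 0 < t) :
    ∑ a, inner ℝ (∑ c, g a c • z b a c) (∑ c, g a c • z b a c) ≤
      (Fintype.card ι : ℝ) ^ 2 * L + (Fintype.card ι : ℝ) ^ 3 * κ + ∑ a, ∑ c, ∑ c', u b a c c' +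
        (t * (Fintype.card ι : ℝ) ^ 2 * L + 2 * (2 * L * I3 ι + κ * I4 ι) / t) / 2 := by
  have hT : T z (fun c a => g a c) ≤ 2 * (2 * L * I3 ι + κ * I4 ι) := by
    have := h.T_le g hg (fun a => g0 a a fun e => e.2.2 rfl)
    have := J3_le hl
    linarith
  have h1 : ∑ a, inner ℝ (∑ c, g a c • z b a c) (∑ c, g a c • z b a c) +
      ∑ c, ∑ c', inner ℝ (z c c' b) (∑ a, (g a c * g a c') • z c c' a) ≤
      (Fintype.card ι : ℝ) ^ 2 * L + (Fintype.card ι : ℝ) ^ 3 * κ + ∑ a, ∑ c, ∑ c', u b a c c' := by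
    have e2 : ∑ c, ∑ c', inner ℝ (z c c' b) (∑ a, (g a c * g a c') • z c c' a) =
        ∑ a, ∑ c, ∑ c', (g a c * g a c') * inner ℝ (z c c' b) (z c c' a) := by
      simp only [inner_sum, real_inner_smul_right]
      exact (sum_congr rfl fun c _ => sum_comm).trans sum_comm
    have e3 : (Fintype.card ι : ℝ) ^ 2 * L + (Fintype.card ι : ℝ) ^ 3 * κ =
        ∑ _a : ι, ∑ c : ι, ∑ c' : ι, ((if c = c' then L else 0) + κ) := by
      simp [sum_add_distrib]; ring
    rw [e2, e3]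
    simp only [inner_sum_sum, ← sum_add_distrib]
    refine sum_le_sum fun a _ => sum_le_sum fun c _ => sum_le_sum fun c' _ => ?_
    have hF := abs_mul_le_one (hg a c) (hg a c')
    have hκ := h.hκ
    have hu := h.u0 b a c c'
    by_cases hz : g a c * g a c' = 0
    · rw [hz]; split_ifs <;> linarith
    · have d1 : D3 b a c := by by_contra e; simp [g0 a c e] at hz
      have d2 : D3 b a c' := by by_contra e; simp [g0 a c' e] at hz
      have hF1 := (abs_le.1 hF).1
      rcases h.point b a c c' hF with h1 | ⟨-, hc, h4⟩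
      · rw [if_neg (fun e : b = a ∧ D3 c c' b => d1.1 e.1)] at h1
        have i1 : (if c = c' ∧ D3 b a c then l b a else 0) ≤ if c = c' then L else 0 := by
          by_cases e : c = c' <;> simp [e, d2, hl]
        have i2 : (if D4 b a c c' then κ else 0) ≤ κ := by split_ifs <;> linarith
        nlinarith
      · exact absurd ⟨d1.1, hc, d1.2.1, d2.2.1, d1.2.2, d2.2.2⟩ h4
  have h2 : -∑ c, ∑ c', inner ℝ (z c c' b) (∑ a, (g a c * g a c') • z c c' a) ≤
      (t * (Fintype.card ι : ℝ) ^ 2 * L + T z (fun c a => g a c) / t) / 2 := by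
    have e : t * (Fintype.card ι : ℝ) ^ 2 * L = ∑ _c : ι, ∑ _c' : ι, t * L := by simp; ring
    unfold T
    rw [e]
    simp only [← sum_neg_distrib, sum_div, ← sum_add_distrib]
    refine sum_le_sum fun c _ => sum_le_sum fun c' _ => (neg_inner_le _ _ ht).trans ?_
    have := mul_le_mul_of_nonneg_left ((h.nz c c' b).trans (hl c c')) ht.le
    linarith
  have h3 := div_le_div_of_nonneg_right hT ht.le
  linarith

lemma I3_le : I3 ι ≤ (Fintype.card ι : ℝ) ^ 3 := by
  have e : (Fintype.card ι : ℝ) ^ 3 = ∑ _a : ι, ∑ _a' : ι, ∑ _c : ι, (1 : ℝ) := by simp; ring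
  unfold I3; rw [e]
  exact sum_le_sum fun _ _ => sum_le_sum fun _ _ => sum_le_sum fun _ _ => by split_ifs <;> simp

/-- sum over pairs of different indices -/
def J2 (f : ι → ι → ℝ) : ℝ := ∑ a, ∑ a', if a ≠ a' then f a a' else 0

/-- sum over quadruples of different indices -/
def J4 (g : ι → ι → ι → ι → ℝ) : ℝ := ∑ a, ∑ a', ∑ c, ∑ c', if D4 a a' c c' then g a a' c c' else 0

lemma J3_eq (f : ι → ι → ℝ) : J3 f = ((Fintype.card ι : ℝ) - 2) * J2 f := by
  unfold J3 J2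
  simp only [mul_sum]
  refine sum_congr rfl fun a _ => sum_congr rfl fun a' _ => ?_
  by_cases h : a = a'
  · simp [h, D3]
  · have e : ∀ c, (if D3 a a' c then f a a' else 0) =
        f a a' - (if a = c then f a a' else 0) - (if a' = c then f a a' else 0) := by
      intro c
      unfold D3
      by_cases e1 : a = c
      · subst e1; simp [Ne.symm h]
      · by_cases e2 : a' = c <;> simp [e1, e2, h]
    simp only [e, sum_sub_distrib]
    simp [h]; ring

lemma J4_12 (f : ι → ι → ℝ) : J4 (fun a a' _ _ => f a a') = ((Fintype.card ι : ℝ) - 3) * J3 f := by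
  unfold J3 J4
  simp only [mul_sum]
  refine sum_congr rfl fun a _ => sum_congr rfl fun a' _ => sum_congr rfl fun c _ => ?_
  by_cases h : D3 a a' c
  · rw [if_pos h]
    have e : ∀ c', (if D4 a a' c c' then f a a' else 0) = f a a' - (if a = c' then f a a' else 0) -
        (if a' = c' then f a a' else 0) - (if c = c' then f a a' else 0) := by
      intro c'
      obtain ⟨h1, h2, h3⟩ := h
      unfold D4
      by_cases e1 : a = c'
      · subst e1; simp [h1.symm, h2.symm]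
      · by_cases e2 : a' = c'
        · subst e2; simp [e1, h3.symm]
        · by_cases e3 : c = c' <;> simp [e1, e2, e3, h1, h2, h3]
    simp only [e, sum_sub_distrib]
    simp; ring
  · rw [if_neg h, mul_zero]
    exact sum_eq_zero fun c' _ => if_neg fun e => h ⟨e.1, e.2.2.1, e.2.2.2.2.1⟩

lemma J4_s12 (g : ι → ι → ι → ι → ℝ) : J4 g = J4 fun a a' c c' => g a' a c c' := by
  unfold J4
  rw [sum_comm]
  refine sum_congr rfl fun _ _ => sum_congr rfl fun _ _ => sum_congr rfl fun _ _ =>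
    sum_congr rfl fun _ _ => if_congr ?_ rfl rfl
  unfold D4; constructor <;> rintro ⟨h1, h2, h3, h4, h5, h6⟩ <;> exact ⟨h1.symm, h2, h5, h6, h3, h4⟩

lemma J4_s23 (g : ι → ι → ι → ι → ℝ) : J4 g = J4 fun a a' c c' => g a c a' c' := by
  unfold J4
  refine sum_congr rfl fun _ _ => ?_
  rw [sum_comm]
  refine sum_congr rfl fun _ _ => sum_congr rfl fun _ _ =>
    sum_congr rfl fun _ _ => if_congr ?_ rfl rfl
  unfold D4; constructor <;> rintro ⟨h1, h2, h3, h4, h5, h6⟩ <;> exact ⟨h3, h6, h1, h4, h5.symm, h2⟩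

lemma J4_s34 (g : ι → ι → ι → ι → ℝ) : J4 g = J4 fun a a' c c' => g a a' c' c := by
  unfold J4
  refine sum_congr rfl fun _ _ => sum_congr rfl fun _ _ => ?_
  rw [sum_comm]
  refine sum_congr rfl fun _ _ => sum_congr rfl fun _ _ => if_congr ?_ rfl rfl
  unfold D4; constructor <;> rintro ⟨h1, h2, h3, h4, h5, h6⟩ <;> exact ⟨h1, h2.symm, h4, h3, h6, h5⟩

lemma J4_13 (f : ι → ι → ℝ) : J4 (fun a _ c _ => f a c) = ((Fintype.card ι : ℝ) - 3) * J3 f := by
  rw [J4_s23, J4_12]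

lemma J4_14 (f : ι → ι → ℝ) : J4 (fun a _ _ c' => f a c') = ((Fintype.card ι : ℝ) - 3) * J3 f := by
  rw [J4_s34, J4_13]

lemma J4_23 (f : ι → ι → ℝ) : J4 (fun _ a' c _ => f a' c) = ((Fintype.card ι : ℝ) - 3) * J3 f := by
  rw [J4_s12, J4_13]

lemma J4_24 (f : ι → ι → ℝ) : J4 (fun _ a' _ c' => f a' c') = ((Fintype.card ι : ℝ) - 3) * J3 f := by
  rw [J4_s12, J4_14]

lemma J4_34 (f : ι → ι → ℝ) : J4 (fun _ _ c c' => f c c') = ((Fintype.card ι : ℝ) - 3) * J3 f := by
  rw [J4_s23, J4_24]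

lemma I4_eq : I4 ι = ((Fintype.card ι : ℝ) - 3) * I3 ι := J4_12 fun _ _ => 1

lemma I3_nonneg : 0 ≤ I3 ι :=
  sum_nonneg fun _ _ => sum_nonneg fun _ _ => sum_nonneg fun _ _ => by split_ifs <;> simp

/-- the star inequality, summed over the centre -/
lemma Dat.stars (h : Dat z u l κ) (hL : 0 ≤ L) (hl : ∀ a a', l a a' ≤ L) (w : ι → ι → ι → ℝ) (hw : ∀ b a c, |w b a c| ≤ 1)
    (w0 : ∀ b a c, ¬ D3 b a c → w b a c = 0) {t K : ℝ} (ht : 1 ≤ t)
    (hn : (Fintype.card ι : ℝ) = t ^ 2) (hK : κ * t ^ 2 ≤ K * L) (hK0 : 0 ≤ K) :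
    ∑ b, ∑ a, inner ℝ (∑ c, w b a c • z b a c) (∑ c, w b a c • z b a c) ≤
      (6 + 3 * K) * t ^ 7 * L := by
  have ht0 : 0 < t := by linarith
  have hκ := h.hκ
  have h1 := sum_le_sum fun b (_ : b ∈ univ) => h.star hL hl b (w b) (hw b) (w0 b) ht0
  have h2 : ∑ a, ∑ a', ∑ c, ∑ c', u a a' c c' ≤ 2 * L * I3 ι + κ * I4 ι := by
    have := h.sum_u
    have := J3_le hl
    linarith
  have h3 : I3 ι ≤ t ^ 6 := by have := I3_le (ι := ι); rw [hn] at this; nlinarith
  have h4 : κ * I4 ι ≤ K * L * t ^ 6 := by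
    rw [I4_eq, hn]
    have := I3_nonneg (ι := ι)
    calc κ * ((t ^ 2 - 3) * I3 ι) ≤ κ * t ^ 2 * I3 ι := by nlinarith [mul_nonneg hκ this]
      _ ≤ K * L * t ^ 6 := mul_le_mul hK h3 this (mul_nonneg hK0 hL)
  have h5 : 2 * L * I3 ι + κ * I4 ι ≤ (2 + K) * t ^ 6 * L := by
    have := mul_le_mul_of_nonneg_left h3 hL
    nlinarith
  simp only [sum_add_distrib, sum_const, card_univ, nsmul_eq_mul, hn] at h1
  have h6 : 2 * (2 * L * I3 ι + κ * I4 ι) / t ≤ 2 * (2 + K) * t ^ 5 * L := by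
    rw [div_le_iff₀ ht0]; nlinarith
  have h7 : t ^ 2 * ((t ^ 2) ^ 3 * κ) ≤ K * L * t ^ 6 := by
    have := mul_le_mul_of_nonneg_right hK (pow_nonneg ht0.le 6)
    nlinarith
  have h8 : t ^ 2 * ((t * (t ^ 2) ^ 2 * L + 2 * (2 * L * I3 ι + κ * I4 ι) / t) / 2) ≤
      (3 + K) * t ^ 7 * L := by
    have := mul_le_mul_of_nonneg_left h6 (pow_nonneg ht0.le 2)
    have : 0 ≤ t ^ 7 * L := by positivity
    nlinarith
  have h9 : t ^ 6 * L ≤ t ^ 7 * L := mul_le_mul_of_nonneg_right (pow_le_pow_right₀ ht (by norm_num)) hL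
  have h10 := mul_le_mul_of_nonneg_left h9 hK0
  nlinarith

end Pool.Agent.MP_df75fe_nt.En
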