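import Mathlib.NumberTheory.Padics.PadicVal.Basic
import Mathlib.Analysis.SpecialFunctions.Log.Basic

/-! Sign energy: the local identity at a prime. -/

set_option autoImplicit false
set_option linter.unusedSectionVars false
open Finset

namespace Pool.Agent.MP_df75fe_nt.En

/-- the valuation as an integer -/
def vz (p : ℕ) (m : ℤ) : ℤ := padicValInt p m

/-- signed closeness of `u / w` to `1` or `-1` -/
def DD (p : ℕ) (u w : ℤ) : ℤ := vz p (u - w) - vz p (u + w)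

lemma vz_nonneg (p : ℕ) (m : ℤ) : 0 ≤ vz p m := Int.natCast_nonneg _

lemma vz_neg (p : ℕ) (m : ℤ) : vz p (-m) = vz p m := by simp [vz, padicValInt]

variable {p : ℕ} [hp : Fact p.Prime]

lemma vz_mul {a b : ℤ} (ha : a ≠ 0) (hb : b ≠ 0) : vz p (a * b) = vz p a + vz p b := by
  simp [vz, padicValInt.mul ha hb]

lemma le_vz {a : ℤ} (ha : a ≠ 0) (k : ℕ) : (k : ℤ) ≤ vz p a ↔ (p : ℤ) ^ k ∣ a := by
  simp [vz, padicValInt_dvd_iff, ha]

lemma vz_add {a b c : ℤ} (hc : c ≠ 0) (h : c = a + b) : vz p a ≤ vz p c ∨ vz p b ≤ vz p c := by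
  by_contra hn
  push Not at hn
  have ha : a ≠ 0 := by rintro rfl; have := vz_nonneg p c; simp [vz] at hn; omega
  have hb : b ≠ 0 := by rintro rfl; have := vz_nonneg p c; simp [vz] at hn; omega
  have h1 := (le_vz (p := p) ha (padicValInt p c + 1)).1 (by have := hn.1; unfold vz at *; omega)
  have h2 := (le_vz (p := p) hb (padicValInt p c + 1)).1 (by have := hn.2; unfold vz at *; omega)
  have h3 := (le_vz (p := p) hc (padicValInt p c + 1)).2 (by
    have := dvd_add h1 h2; rwa [← h] at this)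
  unfold vz at h3; omega

lemma vz_sub {a b c : ℤ} (hc : c ≠ 0) (h : c = a - b) : vz p a ≤ vz p c ∨ vz p b ≤ vz p c := by
  have := vz_add (p := p) (a := a) (b := -b) hc (by rw [h]; ring)
  rwa [vz_neg] at this

lemma DD_neg (u w : ℤ) : DD p u (-w) = -DD p u w := by simp [DD, sub_eq_add_neg]

lemma DD_neg_left (u w : ℤ) : DD p (-u) w = -DD p u w := by
  unfold DD
  rw [show -u - w = -(u + w) by ring, show -u + w = -(u - w) by ring, vz_neg, vz_neg]; ring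

lemma DD_spec {u w : ℤ} (hw : w ≠ 0) (h1 : u - w ≠ 0) (h2 : u + w ≠ 0) :
    |DD p u w| = max 0 (vz p (u ^ 2 - w ^ 2) - 2 * vz p w - 2 * vz p 2) ∧
    (0 < DD p u w ↔ vz p w + vz p 2 < vz p (u - w)) := by
  have e0 : vz p (u ^ 2 - w ^ 2) = vz p (u - w) + vz p (u + w) := by
    rw [← vz_mul h1 h2]; congr 1; ring
  have e1 : vz p (2 * w) = vz p 2 + vz p w := vz_mul two_ne_zero hw
  have e2 := vz_sub (p := p) (a := u + w) (b := u - w) (mul_ne_zero two_ne_zero hw) (by ring)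
  have e3 := vz_sub (p := p) (a := u + w) (b := 2 * w) h1 (by ring)
  have e4 := vz_add (p := p) (a := u - w) (b := 2 * w) h2 (by ring)
  rw [e0, abs_eq_max_neg]
  unfold DD
  omega

lemma DD_pos_mul {u w u' w' : ℤ} (hu' : u' ≠ 0) (hw : w ≠ 0) (hw' : w' ≠ 0) (h1 : u - w ≠ 0)
    (h2 : u + w ≠ 0) (h3 : u' - w' ≠ 0) (h4 : u' + w' ≠ 0) (h5 : u * w' - w * u' ≠ 0)
    (h6 : u * w' + w * u' ≠ 0) (a1 : 0 < DD p u w) (a2 : 0 < DD p u' w') :
    0 < DD p (u * w') (w * u') := by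
  rw [(DD_spec hw h1 h2).2] at a1
  rw [(DD_spec hw' h3 h4).2] at a2
  rw [(DD_spec (mul_ne_zero hw hu') h5 h6).2, vz_mul hw hu']
  have e1 := vz_sub (p := p) (a := (u - w) * w') (b := w * (u' - w')) h5 (by ring)
  rw [vz_mul h1 hw', vz_mul hw h3] at e1
  have e2 := vz_sub (p := p) (a := u') (b := u' - w') hw' (by ring)
  have e3 := vz_add (p := p) (a := w') (b := u' - w') hu' (by ring)
  have := vz_nonneg p 2
  omega

lemma DD_sign_mul {u w u' w' : ℤ} (hu' : u' ≠ 0) (hw : w ≠ 0) (hw' : w' ≠ 0) (h1 : u - w ≠ 0)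
    (h2 : u + w ≠ 0) (h3 : u' - w' ≠ 0) (h4 : u' + w' ≠ 0) (h5 : u * w' - w * u' ≠ 0)
    (h6 : u * w' + w * u' ≠ 0) (a1 : DD p u w ≠ 0) (a2 : DD p u' w' ≠ 0) :
    (DD p u w).sign * (DD p u' w').sign = (DD p (u * w') (w * u')).sign := by
  rcases lt_or_gt_of_ne a1 with a1 | a1 <;> rcases lt_or_gt_of_ne a2 with a2 | a2
  · have := DD_pos_mul (p := p) (u := u) (w := -w) (u' := u') (w' := -w') hu' (neg_ne_zero.2 hw)
      (neg_ne_zero.2 hw') (by simpa using h2) (by simpa [sub_eq_add_neg] using h1)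
      (by simpa using h4) (by simpa [sub_eq_add_neg] using h3)
      (fun e => h5 (by linarith)) (fun e => h6 (by linarith)) (by rw [DD_neg]; omega)
      (by rw [DD_neg]; omega)
    rw [mul_neg, neg_mul, DD_neg, DD_neg_left, neg_neg] at this
    rw [Int.sign_eq_neg_one_of_neg a1, Int.sign_eq_neg_one_of_neg a2, Int.sign_eq_one_of_pos this]
    rfl
  · have := DD_pos_mul (p := p) (u := u) (w := -w) (u' := u') (w' := w') hu' (neg_ne_zero.2 hw)
      hw' (by simpa using h2) (by simpa [sub_eq_add_neg] using h1) h3 h4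
      (fun e => h6 (by linarith)) (fun e => h5 (by linarith)) (by rw [DD_neg]; omega) a2
    rw [neg_mul, DD_neg] at this
    rw [Int.sign_eq_neg_one_of_neg a1, Int.sign_eq_one_of_pos a2,
      Int.sign_eq_neg_one_of_neg (by omega : DD p (u * w') (w * u') < 0)]
    rfl
  · have := DD_pos_mul (p := p) (u := u) (w := w) (u' := u') (w' := -w') hu' hw
      (neg_ne_zero.2 hw') h1 h2 (by simpa using h4) (by simpa [sub_eq_add_neg] using h3)
      (fun e => h6 (by linarith)) (fun e => h5 (by linarith)) a1 (by rw [DD_neg]; omega)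
    rw [mul_neg, DD_neg_left] at this
    rw [Int.sign_eq_one_of_pos a1, Int.sign_eq_neg_one_of_neg a2,
      Int.sign_eq_neg_one_of_neg (by omega : DD p (u * w') (w * u') < 0)]
    rfl
  · have := DD_pos_mul (p := p) hu' hw hw' h1 h2 h3 h4 h5 h6 a1 a2
    rw [Int.sign_eq_one_of_pos a1, Int.sign_eq_one_of_pos a2, Int.sign_eq_one_of_pos this]
    rfl

/-- the positive semidefinite kernel -/
def kk (D D' : ℤ) : ℤ := D.sign * D'.sign * min |D| |D'|

lemma kk_eq {D D' s : ℤ} (h : D ≠ 0 → D' ≠ 0 → D.sign * D'.sign = s) :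
    kk D D' = s * min |D| |D'| := by
  unfold kk
  by_cases h1 : D = 0
  · simp [h1]
  · by_cases h2 : D' = 0
    · simp [h2]
    · rw [h h1 h2]

lemma num_aux (v v' A1 A2 A3 A4 τ : ℤ) (hτ : 0 ≤ τ)
    (a1 : A1 ≤ v ∨ A2 ≤ v) (a2 : v ≤ A1 ∨ A2 ≤ A1) (a3 : A1 ≤ A2 ∨ v ≤ A2)
    (b2 : v ≤ A3 ∨ A4 ≤ A3) (b3 : A3 ≤ A4 ∨ v ≤ A4)
    (c1 : A1 ≤ v' ∨ A3 ≤ v') (c2 : v' ≤ A1 ∨ A3 ≤ A1) (c3 : A1 ≤ A3 ∨ v' ≤ A3)
    (d1 : A2 ≤ v' ∨ A4 ≤ v') (d2 : v' ≤ A2 ∨ A4 ≤ A2) (d3 : A2 ≤ A4 ∨ v' ≤ A4)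
    (b1 : A3 ≤ v ∨ A4 ≤ v) :
    |max 0 (v + v' - A2 - A3 - τ) - min (max 0 (v - A2 - τ)) (max 0 (v - A4 - τ)) -
      min (max 0 (v' - A3 - τ)) (max 0 (v' - A4 - τ))| ≤ τ := by
  rw [abs_le]
  by_cases h1 : A2 < v ∧ A4 < v
  · have e1 : A1 = A2 := by omega
    have e2 : A3 = A4 := by omega
    subst e1 e2
    omega
  · by_cases h2 : A3 < v' ∧ A4 < v'
    · have e1 : A1 = A3 := by omega
      have e2 : A2 = A4 := by omega
      subst e1 e2
      omega
    · have e : v + v' ≤ A2 + A3 := by omega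
      omega

lemma loc {y1 y2 y3 y4 d d' : ℤ} (p1 : 0 < y1) (p2 : 0 < y2) (p3 : 0 < y3) (p4 : 0 < y4)
    (hd : d ≠ 0) (hd' : d' ≠ 0) (e1 : y1 ^ 2 - y2 ^ 2 = d) (e2 : y3 ^ 2 - y4 ^ 2 = d)
    (e3 : y1 ^ 2 - y3 ^ 2 = d') :
    |DD p (y1 * y4) (y2 * y3) - kk (DD p y1 y2) (DD p y3 y4) - kk (DD p y1 y3) (DD p y2 y4)| ≤
      2 * vz p 2 := by
  have e4 : y2 ^ 2 - y4 ^ 2 = d' := by linarith
  have e5 : (y1 * y4) ^ 2 - (y2 * y3) ^ 2 = -(d * d') := by
    rw [← e3]; linear_combination y3 ^ 2 * e1 - y1 ^ 2 * e2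
  have ns : ∀ {a b m : ℤ}, m ≠ 0 → a ^ 2 - b ^ 2 = m → a - b ≠ 0 := fun hm e h =>
    hm (by rw [← e, sub_eq_zero.1 h, sub_self])
  have n12 := ns hd e1
  have n34 := ns hd e2
  have n13 := ns hd' e3
  have n24 := ns hd' e4
  have n5 := ns (neg_ne_zero.2 (mul_ne_zero hd hd')) e5
  have n6 : y1 * y4 + y2 * y3 ≠ 0 := by positivity
  have s12 := (DD_spec (p := p) p2.ne' n12 (by positivity)).1
  have s34 := (DD_spec (p := p) p4.ne' n34 (by positivity)).1
  have s13 := (DD_spec (p := p) p3.ne' n13 (by positivity)).1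
  have s24 := (DD_spec (p := p) p4.ne' n24 (by positivity)).1
  have s5 := (DD_spec (p := p) (mul_pos p2 p3).ne' n5 n6).1
  rw [e1] at s12; rw [e2] at s34; rw [e3] at s13; rw [e4] at s24
  rw [e5, vz_neg, vz_mul hd hd', vz_mul p2.ne' p3.ne'] at s5
  have k1 := kk_eq (DD_sign_mul (p := p) p3.ne' p2.ne' p4.ne' n12 (by positivity) n34
    (by positivity) n5 n6)
  have k2 := kk_eq (DD_sign_mul (p := p) p2.ne' p3.ne' p4.ne' n13 (by positivity) n24
    (by positivity) (by rwa [mul_comm y3]) (by rwa [mul_comm y3]))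
  rw [mul_comm y3 y2] at k2
  have sq : ∀ {a : ℤ}, 0 < a → vz p (a ^ 2) = 2 * vz p a := fun ha => by
    rw [sq, vz_mul ha.ne' ha.ne']; ring
  have tri : ∀ {a b m : ℤ}, 0 < a → 0 < b → m ≠ 0 → a ^ 2 - b ^ 2 = m →
      (2 * vz p a ≤ vz p m ∨ 2 * vz p b ≤ vz p m) ∧ (vz p m ≤ 2 * vz p a ∨ 2 * vz p b ≤ 2 * vz p a) ∧
      (2 * vz p a ≤ 2 * vz p b ∨ vz p m ≤ 2 * vz p b) := fun {a b m} ha hb hm e => by
    rw [← sq ha, ← sq hb]
    exact ⟨vz_sub hm e.symm, vz_add (by positivity) (by linarith),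
      vz_sub (by positivity) (by linarith)⟩
  obtain ⟨a1, a2, a3⟩ := tri p1 p2 hd e1
  obtain ⟨b1, b2, b3⟩ := tri p3 p4 hd e2
  obtain ⟨c1, c2, c3⟩ := tri p1 p3 hd' e3
  obtain ⟨d1, d2, d3⟩ := tri p2 p4 hd' e4
  have hn := num_aux (vz p d) (vz p d') _ _ _ _ (2 * vz p 2) (by have := vz_nonneg p 2; omega)
    a1 a2 a3 b2 b3 c1 c2 c3 d1 d2 d3 b1
  rw [← s12, ← s34, ← s13, ← s24, show vz p d + vz p d' - 2 * vz p y2 - 2 * vz p y3 - 2 * vz p 2 =
    vz p d + vz p d' - 2 * (vz p y2 + vz p y3) - 2 * vz p 2 by ring, ← s5] at hn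
  rw [k1, k2]
  set D := DD p (y1 * y4) (y2 * y3)
  have hD : D = D.sign * |D| := (Int.sign_mul_abs D).symm
  calc _ = |D.sign * (|D| - min |DD p y1 y2| |DD p y3 y4| - min |DD p y1 y3| |DD p y2 y4|)| := by
        congr 1; linear_combination hD
    _ ≤ 1 * (2 * vz p 2) := by
        rw [abs_mul]
        refine mul_le_mul ?_ hn (abs_nonneg _) zero_le_one
        rcases Int.sign_trichotomy D with h | h | h <;> simp [h]
    _ = _ := one_mul _

/-- `log p` for primes, `0` otherwise -/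
noncomputable def lg (p : ℕ) : ℝ := if p.Prime then Real.log p else 0

lemma lg_nonneg (p : ℕ) : 0 ≤ lg p := by
  unfold lg; split_ifs
  · exact Real.log_natCast_nonneg p
  · exact le_rfl

lemma sum_lg {m : ℤ} {M : ℕ} (hM : |m| < M) :
    ∑ q ∈ range M, lg q * (vz q m : ℝ) = Real.log |(m : ℝ)| := by
  have e : |(m : ℝ)| = (m.natAbs : ℕ) := by rw [Nat.cast_natAbs, Int.cast_abs]
  rw [e, Real.log_nat_eq_sum_factorization, Finsupp.sum]
  symm
  refine sum_subset_zero_on_sdiff (fun q hq => ?_) (fun q hq => ?_) (fun q hq => ?_)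
  · have := Nat.le_of_mem_primeFactors (by simpa using hq : q ∈ m.natAbs.primeFactors)
    rw [Int.abs_eq_natAbs] at hM
    rw [mem_range]; omega
  · unfold lg
    split_ifs with h
    · have h1 := (mem_sdiff.1 hq).2
      rw [Finsupp.mem_support_iff, not_not, Nat.factorization_def _ h] at h1
      simp [vz, padicValInt, h1]
    · simp
  · have h := Nat.prime_of_mem_primeFactors (by simpa using hq : q ∈ m.natAbs.primeFactors)
    simp [lg, h, vz, padicValInt, Nat.factorization_def _ h, mul_comm]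

lemma vz_le {m : ℤ} (hm : m ≠ 0) : vz p m ≤ |m| := by
  have h1 := Int.le_of_dvd (abs_pos.2 hm) ((dvd_abs _ _).2 (padicValInt_dvd (p := p) m))
  have h2 := Nat.lt_pow_self (n := padicValInt p m) hp.out.one_lt
  unfold vz
  have : ((padicValInt p m : ℕ) : ℤ) < (p : ℤ) ^ padicValInt p m := by exact_mod_cast h2
  omega

end Pool.Agent.MP_df75fe_nt.En
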