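import Mathlib.Analysis.InnerProductSpace.PiL2
import Pool.Agent.MP_df75fe_nt.h54.En1
import Pool.Agent.MP_df75fe_nt.h54.En2

/-! Sign energy: the vectors attached to a square-sum set. -/

set_option autoImplicit false
set_option linter.unusedSectionVars false
open Finset

namespace Pool.Agent.MP_df75fe_nt.En

/-- signed step function -/
noncomputable def ee (j : ℕ) (D : ℤ) : ℝ := (D.sign : ℝ) * if (j : ℤ) < |D| then 1 else 0

lemma sum_ee {M : ℕ} {D : ℤ} (D' : ℤ) (h : |D| ≤ M) :
    ∑ j ∈ range M, ee j D * ee j D' = (kk D D' : ℝ) := by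
  obtain ⟨m, hm⟩ : ∃ m : ℕ, (m : ℤ) = min |D| |D'| :=
    ⟨(min |D| |D'|).toNat, Int.toNat_of_nonneg (le_min (abs_nonneg _) (abs_nonneg _))⟩
  have e : ∀ j : ℕ, ee j D * ee j D' = (D.sign : ℝ) * D'.sign * if j ∈ range m then 1 else 0 := by
    intro j
    unfold ee
    by_cases h1 : j ∈ range m
    · rw [if_pos h1, if_pos (by rw [mem_range] at h1; omega), if_pos (by rw [mem_range] at h1; omega)]
      ring
    · rw [if_neg h1]
      by_cases h2 : (j : ℤ) < |D|
      · rw [if_neg (show ¬ (j : ℤ) < |D'| by rw [mem_range] at h1; omega)]; ring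
      · rw [if_neg h2]; ring
  simp only [e, ← mul_sum]
  rw [sum_ite_mem, inter_eq_right.2 (range_mono (by omega)), kk, ← hm]
  simp

/-- the vector of a family of signed depths -/
noncomputable def vec (M : ℕ) (D : ℕ → ℤ) : EuclideanSpace ℝ (Fin M × Fin M) :=
  WithLp.toLp 2 fun i => √(lg i.1) * ee i.2 (D i.1)

lemma inner_vec {M : ℕ} {D : ℕ → ℤ} (D' : ℕ → ℤ) (h : ∀ p : ℕ, p.Prime → |D p| ≤ M) :
    inner ℝ (vec M D) (vec M D') = ∑ p ∈ range M, lg p * (kk (D p) (D' p) : ℝ) := by
  rw [PiLp.inner_apply, Fintype.sum_prod_type, ← Fin.sum_univ_eq_sum_range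
    (fun p => lg p * (kk (D p) (D' p) : ℝ))]
  refine sum_congr rfl fun p _ => ?_
  by_cases hp : (p : ℕ).Prime
  · rw [← sum_ee (D' p) (h p hp), ← Fin.sum_univ_eq_sum_range
      (fun j => ee j (D p) * ee j (D' p)), mul_sum]
    refine sum_congr rfl fun j _ => ?_
    have := Real.mul_self_sqrt (lg_nonneg p)
    simp only [vec, RCLike.inner_apply, conj_trivial]
    linear_combination (ee j (D p) * ee j (D' p)) * this
  · simp [vec, lg, hp]

lemma kk_self (D : ℤ) : kk D D = |D| := by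
  unfold kk
  rcases lt_trichotomy D 0 with h | h | h
  · simp [Int.sign_eq_neg_one_of_neg h]
  · simp [h]
  · simp [Int.sign_eq_one_of_pos h]

variable {ι : Type} [Fintype ι] [DecidableEq ι]

/-- a square-sum family with its positive square roots -/
structure SS (x : ι → ℤ) (y : ι → ι → ℤ) : Prop where
  inj : Function.Injective x
  sym : ∀ a c, y a c = y c a
  pos : ∀ a c, a ≠ c → 0 < y a c
  sq : ∀ a c, a ≠ c → y a c ^ 2 = x a + x c

variable {x : ι → ℤ} {y : ι → ι → ℤ}

lemma SS.abs_DD (h : SS x y) {p : ℕ} (hp : p.Prime) {a a' c : ι} (h3 : D3 a a' c) :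
    |DD p (y a c) (y a' c)| = max 0 (vz p (x a - x a') - vz p (x a' + x c) - 2 * vz p 2) := by
  have := Fact.mk hp
  have p1 := h.pos a c h3.2.1
  have p2 := h.pos a' c h3.2.2
  have e : y a c ^ 2 - y a' c ^ 2 = x a - x a' := by rw [h.sq a c h3.2.1, h.sq a' c h3.2.2]; ring
  have n1 : y a c - y a' c ≠ 0 := fun e1 => h3.1 (h.inj (by
    rw [sub_eq_zero.1 e1, sub_self] at e; linarith))
  rw [(DD_spec p2.ne' n1 (by positivity)).1, e, ← h.sq a' c h3.2.2, _root_.sq, vz_mul p2.ne' p2.ne']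
  ring_nf

lemma SS.abs_DD_le (h : SS x y) {p : ℕ} (hp : p.Prime) {a a' c : ι} (h3 : D3 a a' c) :
    |DD p (y a c) (y a' c)| ≤ vz p (x a - x a') := by
  rw [h.abs_DD hp h3]
  have := vz_nonneg p (x a - x a')
  have := vz_nonneg p (x a' + x c)
  have := vz_nonneg p 2
  omega

/-- the vectors -/
noncomputable def zz (y : ι → ι → ℤ) (M : ℕ) (a a' c : ι) : EuclideanSpace ℝ (Fin M × Fin M) :=
  if D3 a a' c then vec M fun p => DD p (y a c) (y a' c) else 0

/-- the archimedean term -/
noncomputable def uu (y : ι → ι → ℤ) (a a' c c' : ι) : ℝ :=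
  if D4 a a' c c' then Real.log |((y a c * y a' c' + y a' c * y a c' : ℤ) : ℝ)| -
    Real.log |((y a c * y a' c' - y a' c * y a c' : ℤ) : ℝ)| else 0

lemma SS.rect (h : SS x y) {a a' c c' : ι} (h4 : D4 a a' c c') :
    (y a c * y a' c' - y a' c * y a c') * (y a c * y a' c' + y a' c * y a c') =
      -((x a - x a') * (x c - x c')) := by
  obtain ⟨-, -, e1, e2, e3, e4⟩ := h4
  have := h.sq _ _ e1
  have := h.sq _ _ e2
  have := h.sq _ _ e3
  have := h.sq _ _ e4
  calc _ = y a c ^ 2 * y a' c' ^ 2 - y a' c ^ 2 * y a c' ^ 2 := by ring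
    _ = _ := by simp only [*]; ring

lemma SS.rect_ne (h : SS x y) {a a' c c' : ι} (h4 : D4 a a' c c') :
    y a c * y a' c' - y a' c * y a c' ≠ 0 := fun e => by
  have := h.rect h4
  rw [e, zero_mul, eq_comm, neg_eq_zero, mul_eq_zero, sub_eq_zero, sub_eq_zero] at this
  exact this.elim (fun e => h4.1 (h.inj e)) fun e => h4.2.1 (h.inj e)

lemma SS.dat (h : SS x y) {M : ℕ} {B : ℤ} (hy : ∀ a c, |y a c| ≤ B)
    (hx : ∀ a c, |x a - x c| < M) (hM : 2 * B ^ 2 + 2 < M) :
    Dat (zz y M) (uu y) (fun a c => Real.log |((x a - x c : ℤ) : ℝ)|) (2 * Real.log 2) := by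
  have hD : ∀ {a a' c : ι}, D3 a a' c → ∀ p : ℕ, p.Prime → |DD p (y a c) (y a' c)| ≤ M := by
    intro a a' c h3 p hp
    have := Fact.mk hp
    exact (h.abs_DD_le hp h3).trans ((vz_le (sub_ne_zero.2 (h.inj.ne h3.1))).trans (hx _ _).le)
  have hlg : ∀ {f g : ℕ → ℤ}, (∀ p : ℕ, p.Prime → f p ≤ g p) →
      ∑ p ∈ range M, lg p * (f p : ℝ) ≤ ∑ p ∈ range M, lg p * (g p : ℝ) := by
    intro f g hfg
    refine sum_le_sum fun p _ => ?_
    by_cases hp : p.Prime
    · exact mul_le_mul_of_nonneg_left (by exact_mod_cast hfg p hp) (lg_nonneg p)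
    · simp [lg, hp]
  refine ⟨by positivity, fun a a' c => ?_, fun a a' c h3 => if_neg h3,
    fun a a' c c' => ?_, fun a a' c c' h4 => if_neg h4, fun a a' c c' h4 => ?_⟩
  · unfold zz
    split_ifs with h3
    · rw [inner_vec _ (hD h3)]
      refine (hlg (g := fun p => vz p (x a - x a')) fun p hp => ?_).trans ?_
      · rw [kk_self]; exact h.abs_DD_le hp h3
      · rw [sum_lg (hx a a')]
    · rw [inner_zero_left, Real.log_abs]; exact Real.log_intCast_nonneg _
  · unfold uu
    split_ifs with h4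
    · rw [sub_nonneg]
      refine Real.log_le_log (abs_pos.2 (by exact_mod_cast h.rect_ne h4)) ?_
      have p1 := mul_pos (h.pos _ _ h4.2.2.1) (h.pos _ _ h4.2.2.2.2.2)
      have p2 := mul_pos (h.pos _ _ h4.2.2.2.2.1) (h.pos _ _ h4.2.2.2.1)
      rw [← Int.cast_abs, ← Int.cast_abs, Int.cast_le, abs_of_pos (add_pos p1 p2), abs_le]
      constructor <;> linarith
    · exact le_rfl
  · obtain ⟨n1, n2, e1, e2, e3, e4⟩ := id h4
    have t1 : D3 a a' c := ⟨n1, e1, e3⟩
    have t2 : D3 a a' c' := ⟨n1, e2, e4⟩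
    have t3 : D3 c c' a := ⟨n2, e1.symm, e2.symm⟩
    have t4 : D3 c c' a' := ⟨n2, e3.symm, e4.symm⟩
    have hB : ∀ a c a' c', |y a c * y a' c'| ≤ B ^ 2 := fun a c a' c' => by
      rw [abs_mul, _root_.sq]
      exact mul_le_mul (hy _ _) (hy _ _) (abs_nonneg _) ((abs_nonneg _).trans (hy a c))
    have b1 : |y a c * y a' c' + y a' c * y a c'| < M := by
      have := abs_add_le (y a c * y a' c') (y a' c * y a c')
      have := hB a c a' c'; have := hB a' c a c'; omega
    have b2 : |y a c * y a' c' - y a' c * y a c'| < M := by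
      have := abs_sub (y a c * y a' c') (y a' c * y a c')
      have := hB a c a' c'; have := hB a' c a c'; omega
    have b3 : |(2 : ℤ)| < M := by have := sq_nonneg B; rw [abs_two]; omega
    have l2 : 2 * Real.log 2 = ∑ p ∈ range M, lg p * ((2 * vz p 2 : ℤ) : ℝ) := by
      have := sum_lg b3
      push_cast at this ⊢
      rw [abs_two] at this
      rw [← this, mul_sum]
      exact sum_congr rfl fun _ _ => by ring
    have hl : ∀ p : ℕ, p.Prime → |DD p (y a c * y a' c') (y a' c * y a c') -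
        kk (DD p (y a c) (y a' c)) (DD p (y a c') (y a' c')) -
        kk (DD p (y a c) (y a c')) (DD p (y a' c) (y a' c'))| ≤ 2 * vz p 2 := fun p hp => by
      have := Fact.mk hp
      refine loc (d := x a - x a') (d' := x c - x c') (h.pos _ _ e1) (h.pos _ _ e3) (h.pos _ _ e2)
        (h.pos _ _ e4) (sub_ne_zero.2 (h.inj.ne n1)) (sub_ne_zero.2 (h.inj.ne n2)) ?_ ?_ ?_
      · rw [h.sq _ _ e1, h.sq _ _ e3]; ring
      · rw [h.sq _ _ e2, h.sq _ _ e4]; ring
      · rw [h.sq _ _ e1, h.sq _ _ e2]; ring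
    have e : inner ℝ (zz y M a a' c) (zz y M a a' c') + inner ℝ (zz y M c c' a) (zz y M c c' a') +
        uu y a a' c c' = -∑ p ∈ range M, lg p * ((DD p (y a c * y a' c') (y a' c * y a c') -
        kk (DD p (y a c) (y a' c)) (DD p (y a c') (y a' c')) -
        kk (DD p (y a c) (y a c')) (DD p (y a' c) (y a' c')) : ℤ) : ℝ) := by
      unfold zz uu
      rw [if_pos t1, if_pos t2, if_pos t3, if_pos t4, if_pos h4, inner_vec _ (hD t1),
        inner_vec _ (hD t3), ← sum_lg b1, ← sum_lg b2, h.sym c a, h.sym c' a, h.sym c a',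
        h.sym c' a']
      simp only [← sum_add_distrib, ← sum_sub_distrib, ← sum_neg_distrib]
      refine sum_congr rfl fun p _ => ?_
      conv_rhs => rw [DD]
      push_cast; ring
    rw [e, abs_neg, l2, abs_le]
    refine ⟨?_, hlg fun p hp => (abs_le.1 (hl p hp)).2⟩
    have := hlg (f := fun p => -(2 * vz p 2)) fun p hp => (abs_le.1 (hl p hp)).1
    simpa using this

lemma SS.exists_dat (h : SS x y) (f : ι → ι → ℕ) : ∃ M : ℕ, (∀ a c, f a c < M) ∧
    Dat (zz y M) (uu y) (fun a c => Real.log |((x a - x c : ℤ) : ℝ)|) (2 * Real.log 2) := by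
  obtain ⟨B, hB⟩ := Finite.exists_le fun e : ι × ι => |y e.1 e.2|
  obtain ⟨C, hC⟩ := Finite.exists_le fun e : ι × ι => (x e.1 - x e.2).natAbs + f e.1 e.2
  refine ⟨(2 * B ^ 2 + 2).toNat + C + 1, fun a c => ?_, h.dat (B := B) (fun a c => hB (a, c))
    (fun a c => ?_) (by omega)⟩
  · have := hC (a, c); simp only at this; omega
  · have := hC (a, c); simp only at this; rw [Int.abs_eq_natAbs]; omega

/-- the main inequality -/
lemma SS.mi (h : SS x y) {Hh : ℝ} (hH1 : 1 ≤ Hh) (hH : ∀ a c, |((x a - x c : ℤ) : ℝ)| ≤ Hh)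
    {t K : ℝ} (ht : 1 ≤ t) (hn : (Fintype.card ι : ℝ) = t ^ 2)
    (hK : 2 * Real.log 2 * t ^ 2 ≤ K * Real.log Hh) (hK0 : 0 ≤ K) (P k : ι → ι → ℕ)
    (hP : ∀ b a, k b a ≠ 0 → (P b a).Prime) :
    ∑ b, ∑ a, (k b a : ℝ) * Real.log (P b a) *
      (#{c | D3 b a c ∧ (k b a : ℤ) ≤ |DD (P b a) (y b c) (y a c)|} : ℝ) ^ 2 ≤
      (6 + 3 * K) * t ^ 7 * Real.log Hh := by
  obtain ⟨M, hM, hd⟩ := h.exists_dat fun a c => P a c + k a c
  have hl : ∀ a c, Real.log |((x a - x c : ℤ) : ℝ)| ≤ Real.log Hh := fun a c => by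
    rcases (abs_nonneg ((x a - x c : ℤ) : ℝ)).eq_or_lt with e | e
    · rw [← e, Real.log_zero]; exact Real.log_nonneg hH1
    · exact Real.log_le_log e (hH a c)
  refine le_trans (sum_le_sum fun b _ => sum_le_sum fun a _ => ?_)
    (hd.stars (Real.log_nonneg hH1) hl (fun b a c => if D3 b a c then ((DD (P b a) (y b c) (y a c)).sign : ℝ) else 0)
      (fun b a c => ?_) (fun b a c h3 => if_neg h3) ht hn hK hK0)
  · by_cases hk : k b a = 0
    · rw [hk, Nat.cast_zero, zero_mul, zero_mul]; exact real_inner_self_nonneg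
    have hp := hP b a hk
    have h1 : P b a < M := by have := hM b a; omega
    have h2 : k b a ≤ M := by have := hM b a; omega
    set V := ∑ c, (if D3 b a c then ((DD (P b a) (y b c) (y a c)).sign : ℝ) else 0) • zz y M b a c
      with hV
    set n : ℝ := ((#{c | D3 b a c ∧ (k b a : ℤ) ≤ |DD (P b a) (y b c) (y a c)|} : ℕ) : ℝ) with hn'
    have hc : ∀ j : Fin (k b a), √(lg (P b a)) * n ≤ V (⟨P b a, h1⟩, Fin.castLE h2 j) := by
      intro j
      rw [hV, hn', card_filter, WithLp.ofLp_sum, Finset.sum_apply]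
      push_cast
      rw [mul_sum]
      refine sum_le_sum fun c _ => ?_
      have hs := Real.sqrt_nonneg (lg (P b a))
      by_cases h3 : D3 b a c
      · simp only [zz, vec, WithLp.ofLp_smul, Pi.smul_apply, smul_eq_mul, Fin.val_castLE,
          h3, true_and, ee, if_true]
        have hj := j.2
        set D := DD (P b a) (y b c) (y a c)
        have s2 : 0 ≤ (D.sign : ℝ) * D.sign := mul_self_nonneg _
        by_cases h5 : (k b a : ℤ) ≤ |D|
        · have s1 : (D.sign : ℝ) * D.sign = 1 := by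
            have : D ≠ 0 := by rintro e; rw [e, abs_zero] at h5; omega
            rcases lt_or_gt_of_ne this with e | e
            · simp [Int.sign_eq_neg_one_of_neg e]
            · simp [Int.sign_eq_one_of_pos e]
          rw [if_pos h5, if_pos (show ((j : ℕ) : ℤ) < |D| by omega)]
          exact le_of_eq (by linear_combination (-√(lg (P b a))) * s1)
        · rw [if_neg h5]
          have := mul_nonneg hs s2
          split_ifs <;> nlinarith
      · simp [h3]
    rw [PiLp.inner_apply]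
    have hi : Function.Injective fun j : Fin (k b a) =>
        ((⟨P b a, h1⟩, Fin.castLE h2 j) : Fin M × Fin M) := fun j j' e => by
      simpa using e
    refine le_trans ?_ (sum_le_sum_of_subset_of_nonneg (subset_univ (univ.image fun j : Fin (k b a) =>
      ((⟨P b a, h1⟩, Fin.castLE h2 j) : Fin M × Fin M))) fun i _ _ => real_inner_self_nonneg)
    rw [sum_image fun j _ j' _ e => hi e]
    have e : (k b a : ℝ) * Real.log (P b a) * n ^ 2 =
        ∑ _j : Fin (k b a), (√(lg (P b a)) * n) * (√(lg (P b a)) * n) := by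
      have := Real.mul_self_sqrt (lg_nonneg (P b a))
      rw [sum_const, card_univ, Fintype.card_fin, nsmul_eq_mul]
      have e2 : lg (P b a) = Real.log (P b a) := if_pos hp
      rw [← e2]
      linear_combination (-(k b a : ℝ) * n ^ 2) * this
    rw [e]
    refine sum_le_sum fun j _ => ?_
    have h0 : 0 ≤ √(lg (P b a)) * n := by positivity
    simp only [RCLike.inner_apply, conj_trivial]
    exact mul_le_mul (hc j) (hc j) h0 (h0.trans (hc j))
  · split_ifs
    · rcases Int.sign_trichotomy (DD (P b a) (y b c) (y a c)) with e | e | e <;> simp [e]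
    · simp

/-- the discriminant inequality in logarithmic form -/
lemma SS.disc (h : SS x y) (hn : 3 ≤ Fintype.card ι) :
    ((Fintype.card ι : ℝ) - 3) * J2 (fun a c => Real.log ((x a + x c : ℤ) : ℝ)) ≤
      ((Fintype.card ι : ℝ) - 2) * J2 (fun a c => Real.log |((x a - x c : ℤ) : ℝ)|) := by
  obtain ⟨M, -, hd⟩ := h.exists_dat fun _ _ => 0
  have h1 := hd.sum_u
  set s : ι → ι → ℝ := fun a c => Real.log ((x a + x c : ℤ) : ℝ) with hs
  set d : ι → ι → ℝ := fun a c => Real.log |((x a - x c : ℤ) : ℝ)| with hdd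
  have h2 : 2 * Real.log 2 * I4 ι + (J4 (fun a _ c _ => s a c) + J4 (fun _ a' _ c' => s a' c') +
      J4 (fun _ a' c _ => s a' c) + J4 (fun a _ _ c' => s a c')) / 2 -
      J4 (fun a a' _ _ => d a a') - J4 (fun _ _ c c' => d c c') ≤
      ∑ a, ∑ a', ∑ c, ∑ c', uu y a a' c c' := by
    unfold I4 J4
    simp only [mul_sum, sum_div, ← sum_add_distrib, ← sum_sub_distrib]
    refine sum_le_sum fun a _ => sum_le_sum fun a' _ => sum_le_sum fun c _ =>
      sum_le_sum fun c' _ => ?_
    unfold uu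
    by_cases h4 : D4 a a' c c'
    · simp only [if_pos h4]
      have r := h.rect h4
      have r0 := h.rect_ne h4
      obtain ⟨n1, n2, e1, e2, e3, e4⟩ := h4
      have l : ∀ {a c : ι}, a ≠ c → s a c = 2 * Real.log (y a c) := fun {a c} e => by
        rw [hs]; simp only; rw [← h.sq a c e]; push_cast; rw [Real.log_pow]; norm_num
      rw [l e1, l e2, l e3, l e4]
      have p1 : (0 : ℝ) < y a c := by exact_mod_cast h.pos _ _ e1
      have p2 : (0 : ℝ) < y a c' := by exact_mod_cast h.pos _ _ e2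
      have p3 : (0 : ℝ) < y a' c := by exact_mod_cast h.pos _ _ e3
      have p4 : (0 : ℝ) < y a' c' := by exact_mod_cast h.pos _ _ e4
      have d1 : ((x a - x a' : ℤ) : ℝ) ≠ 0 := by exact_mod_cast sub_ne_zero.2 (h.inj.ne n1)
      have d2 : ((x c - x c' : ℤ) : ℝ) ≠ 0 := by exact_mod_cast sub_ne_zero.2 (h.inj.ne n2)
      have r1 : ((y a c * y a' c' - y a' c * y a c' : ℤ) : ℝ) ≠ 0 := by exact_mod_cast r0
      have r2 : (0 : ℝ) < ((y a c * y a' c' + y a' c * y a c' : ℤ) : ℝ) := by push_cast; positivity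
      have q1 : Real.log ((y a c * y a' c' - y a' c * y a c' : ℤ) : ℝ) +
          Real.log ((y a c * y a' c' + y a' c * y a c' : ℤ) : ℝ) =
          Real.log ((x a - x a' : ℤ) : ℝ) + Real.log ((x c - x c' : ℤ) : ℝ) := by
        rw [← Real.log_mul r1 r2.ne', ← Real.log_mul d1 d2, ← Int.cast_mul, r, Int.cast_neg,
          Real.log_neg_eq_log, Int.cast_mul]
      have q2 : Real.log (2 ^ 2 * ((y a c : ℝ) * y a' c' * (y a' c * y a c'))) ≤
          Real.log (((y a c * y a' c' + y a' c * y a c' : ℤ) : ℝ) ^ 2) := by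
        refine Real.log_le_log (by positivity) ?_
        push_cast
        nlinarith [sq_nonneg ((y a c : ℝ) * y a' c' - y a' c * y a c')]
      rw [Real.log_mul (by positivity) (by positivity), Real.log_mul (by positivity) (by positivity),
        Real.log_mul p1.ne' p4.ne', Real.log_mul p3.ne' p2.ne', Real.log_pow, Real.log_pow] at q2
      simp only [hdd, Real.log_abs]
      push_cast at q1 q2 ⊢
      linarith
    · simp [if_neg h4]
  rw [J4_13, J4_24, J4_23, J4_14, J4_12, J4_34] at h2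
  have h3 : ((Fintype.card ι : ℝ) - 3) * J3 s ≤ ((Fintype.card ι : ℝ) - 2) * J3 d := by linarith
  have h5 : (3 : ℝ) ≤ Fintype.card ι := by exact_mod_cast hn
  rw [J3_eq, J3_eq] at h3
  refine le_of_mul_le_mul_left (a := (Fintype.card ι : ℝ) - 2) ?_ (by linarith)
  linarith

end Pool.Agent.MP_df75fe_nt.En
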