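import Mathlib.Algebra.IsPrimePow
import Pool.Agent.MP_df75fe_nt.h54.En3

/-! Sign energy: large prime powers in the differences. -/

set_option autoImplicit false
set_option linter.unusedSectionVars false
open Finset

namespace Pool.Agent.MP_df75fe_nt.En

variable {ι : Type} [Fintype ι] [DecidableEq ι] {x : ι → ℤ} {y : ι → ι → ℤ}

/-- the conclusion of the main inequality -/
def MI (y : ι → ι → ℤ) (R : ℝ) : Prop := ∀ P k : ι → ι → ℕ, (∀ b a, k b a ≠ 0 → (P b a).Prime) →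
  ∑ b, ∑ a, (k b a : ℝ) * Real.log (P b a) *
    (#{c | D3 b a c ∧ (k b a : ℤ) ≤ |DD (P b a) (y b c) (y a c)|} : ℝ) ^ 2 ≤ R

lemma SS.clus (h : SS x y) {R : ℝ} (hR : MI y R) {p : ℕ} (hp : p.Prime) (K : Finset ι) (k : ℕ)
    {r σ : ℤ} (h1 : ∀ c ∈ K, ∀ c' ∈ K, c ≠ c' → r ≤ vz p (x c - x c') ∧ vz p (x c + x c') ≤ σ)
    (hk : (k : ℤ) ≤ r - σ - 2 * vz p 2) (h4 : 4 ≤ #K) :
    (k : ℝ) * Real.log p * ((#K : ℝ) / 2) ^ 4 ≤ R := by
  refine le_trans ?_ (hR (fun _ _ => p) (fun b a => if b ∈ K ∧ a ∈ K ∧ b ≠ a then k else 0)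
    fun _ _ _ => hp)
  have hl : 0 ≤ (k : ℝ) * Real.log p := mul_nonneg (Nat.cast_nonneg _) (Real.log_natCast_nonneg p)
  have h5 : (4 : ℝ) ≤ #K := by exact_mod_cast h4
  have e : (k : ℝ) * Real.log p * ((#K : ℝ) / 2) ^ 4 ≤
      ∑ b ∈ K, ∑ _a ∈ K.erase b, (k : ℝ) * Real.log p * ((#K : ℝ) / 2) ^ 2 := by
    rw [sum_congr rfl fun b hb => by rw [sum_const, card_erase_of_mem hb], sum_const, nsmul_eq_mul,
      nsmul_eq_mul, Nat.cast_sub (by omega)]
    have : 0 ≤ (k : ℝ) * Real.log p * ((#K : ℝ) / 2) ^ 2 := by positivity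
    have : ((#K : ℝ) / 2) ^ 2 ≤ #K * (#K - 1) := by nlinarith
    push_cast
    nlinarith
  refine e.trans ((sum_le_sum fun b hb => ?_).trans (sum_le_sum_of_subset_of_nonneg (subset_univ K)
    fun b _ _ => sum_nonneg fun a _ => mul_nonneg (mul_nonneg (Nat.cast_nonneg _)
      (Real.log_natCast_nonneg p)) (sq_nonneg _)))
  refine (sum_le_sum fun a ha => ?_).trans (sum_le_sum_of_subset_of_nonneg (subset_univ (K.erase b))
    fun a _ _ => mul_nonneg (mul_nonneg (Nat.cast_nonneg _)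
      (Real.log_natCast_nonneg p)) (sq_nonneg _))
  obtain ⟨hab, ha⟩ := mem_erase.1 ha
  simp only [if_pos (show b ∈ K ∧ a ∈ K ∧ b ≠ a from ⟨hb, ha, hab.symm⟩)]
  refine mul_le_mul_of_nonneg_left (pow_le_pow_left₀ (by positivity) ?_ 2) hl
  have hs : (K.erase b).erase a ⊆ ({c | D3 b a c ∧ (k : ℤ) ≤ |DD p (y b c) (y a c)|} : Finset ι) := by
    intro c hc
    obtain ⟨c1, hc⟩ := mem_erase.1 hc
    obtain ⟨c2, hc⟩ := mem_erase.1 hc
    have h3 : D3 b a c := ⟨hab.symm, c2.symm, c1.symm⟩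
    refine mem_filter.2 ⟨mem_univ _, h3, ?_⟩
    rw [h.abs_DD hp h3]
    have := (h1 b hb a ha hab.symm).1
    have := (h1 a ha c hc c1.symm).2
    omega
  have h6 := card_le_card hs
  rw [card_erase_of_mem (mem_erase.2 ⟨hab, ha⟩), card_erase_of_mem hb] at h6
  have h7 : #K ≤ 2 * #{c | D3 b a c ∧ (k : ℤ) ≤ |DD p (y b c) (y a c)|} := by omega
  have h8 : (#K : ℝ) ≤ 2 * (#{c | D3 b a c ∧ (k : ℤ) ≤ |DD p (y b c) (y a c)|} : ℕ) := by
    exact_mod_cast h7
  linarith

lemma vz_diff {p e : ℕ} (hp : p.Prime) {a b : ℤ} (ha : a ≠ 0) (hb : b ≠ 0) (hab : b ≠ a) (he : e ≠ 0)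
    (hd : ((p ^ e : ℕ) : ℤ) * (Int.gcd b a : ℤ) ∣ b - a) : vz p a + e ≤ vz p (b - a) := by
  have := Fact.mk hp
  have hd0 : b - a ≠ 0 := sub_ne_zero.2 hab
  have h1 := vz_add (p := p) (a := b - a) (b := a) hb (by ring)
  obtain ⟨m, hm⟩ : ∃ m : ℕ, (m : ℤ) = min (vz p a) (vz p b) :=
    ⟨(min (vz p a) (vz p b)).toNat, Int.toNat_of_nonneg (le_min (vz_nonneg _ _) (vz_nonneg _ _))⟩
  have h2 : (p : ℤ) ^ m ∣ (Int.gcd b a : ℤ) :=
    Int.dvd_coe_gcd ((le_vz hb m).1 (by omega)) ((le_vz ha m).1 (by omega))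
  have h3 := (le_vz (p := p) hd0 (e + m)).2 (by
    rw [pow_add]; push_cast at hd; exact (mul_dvd_mul_left _ h2).trans hd)
  omega

lemma log_pow_le {p e : ℕ} (hp : p.Prime) :
    Real.log ((p ^ e : ℕ) : ℝ) ≤
      2 * ((((e + 1) / 2 - 3 * padicValInt p 2 : ℕ) : ℝ) * Real.log p) + 6 * Real.log 2 := by
  have := Fact.mk hp
  have h1 : (padicValInt p 2 : ℝ) * Real.log p ≤ Real.log 2 := by
    rw [← Real.log_pow]
    refine Real.log_le_log (pow_pos (by exact_mod_cast hp.pos) _) ?_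
    exact_mod_cast Int.le_of_dvd two_pos (padicValInt_dvd (p := p) 2)
  have h2 : (e : ℝ) ≤ 2 * (((e + 1) / 2 - 3 * padicValInt p 2 : ℕ) : ℝ) + 6 * padicValInt p 2 := by
    have : e ≤ 2 * ((e + 1) / 2 - 3 * padicValInt p 2) + 6 * padicValInt p 2 := by omega
    exact_mod_cast this
  have h3 := mul_le_mul_of_nonneg_right h2 (Real.log_natCast_nonneg p)
  rw [Nat.cast_pow, Real.log_pow]
  linarith

lemma SS.mainA (h : SS x y) (hx : ∀ a, 0 < x a) {R : ℝ} (hR : MI y R) (hn : 16 ≤ Fintype.card ι)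
    (q : ι → ι → ℕ) (hq : ∀ b a, b ≠ a → (q b a = 1 ∨ IsPrimePow (q b a)) ∧
      (q b a : ℤ) * (Int.gcd (x b) (x a) : ℤ) ∣ x b - x a) :
    J2 (fun b a => Real.log (q b a)) ≤
      8200 * R / (Fintype.card ι : ℝ) ^ 2 + 6 * Real.log 2 * (Fintype.card ι : ℝ) ^ 2 := by
  have hc : ∀ b a, ∃ p e : ℕ, p.Prime ∧ (b ≠ a → q b a = p ^ e) := fun b a => by
    by_cases hab : b = a
    · exact ⟨2, 0, Nat.prime_two, fun e => absurd hab e⟩
    · rcases (hq b a hab).1 with e | e
      · exact ⟨2, 0, Nat.prime_two, fun _ => e⟩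
      · obtain ⟨p, k, hp, -, e⟩ := (isPrimePow_nat_iff _).1 e
        exact ⟨p, k, hp, fun _ => e.symm⟩
  choose P e hP hPe using hc
  set n : ℝ := ((Fintype.card ι : ℕ) : ℝ) with hn'
  have hn0 : (16 : ℝ) ≤ n := by rw [hn']; exact_mod_cast hn
  set k : ι → ι → ℕ := fun b a => (e b a + 1) / 2 - 3 * padicValInt (P b a) 2 with hk
  set K : ι → ι → Finset ι := fun b a =>
    {c | c ≠ a ∧ vz (P b a) (x a) + (e b a / 2 : ℕ) + 1 ≤ vz (P b a) (x a + x c)} with hK
  set k' : ι → ι → ℕ := fun b a => if b ≠ a ∧ 4 * #(K b a) < Fintype.card ι then k b a else 0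
    with hk'
  have hR0 : 0 ≤ R := le_trans (by simp) (hR (fun _ _ => 2) (fun _ _ => 0) fun _ _ e => absurd rfl e)
  have hlog : ∀ b a, 0 ≤ Real.log (P b a) := fun b a => Real.log_natCast_nonneg _
  have h1 : ∑ b, ∑ a, (k' b a : ℝ) * Real.log (P b a) * (n / 2) ^ 2 ≤ R := by
    refine le_trans (sum_le_sum fun b _ => sum_le_sum fun a _ => ?_) (hR P k' fun b a _ => hP b a)
    by_cases h0 : k' b a = 0
    · simp [h0]
    refine mul_le_mul_of_nonneg_left (pow_le_pow_left₀ (by positivity) ?_ 2)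
      (mul_nonneg (Nat.cast_nonneg _) (hlog b a))
    have hb : b ≠ a ∧ 4 * #(K b a) < Fintype.card ι := by
      by_contra hb; exact h0 (if_neg hb)
    have e1 : k' b a = (e b a + 1) / 2 - 3 * padicValInt (P b a) 2 := if_pos hb
    have hv := vz_diff (e := e b a) (hP b a) (hx a).ne' (hx b).ne' (h.inj.ne hb.1) (by omega)
      (by rw [← hPe b a hb.1]; exact (hq b a hb.1).2)
    have hs : (univ : Finset ι) ⊆
        ({c | D3 b a c ∧ (k' b a : ℤ) ≤ |DD (P b a) (y b c) (y a c)|} : Finset ι) ∪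
        insert b (insert a (K b a)) := by
      intro c _
      by_cases hc : c ∈ insert b (insert a (K b a))
      · exact mem_union_right _ hc
      · simp only [mem_insert, not_or, hK, mem_filter, mem_univ, true_and, not_and, not_le] at hc
        have h3 : D3 b a c := ⟨hb.1, Ne.symm hc.1, Ne.symm hc.2.1⟩
        refine mem_union_left _ (mem_filter.2 ⟨mem_univ _, h3, ?_⟩)
        rw [h.abs_DD (hP b a) h3]
        have := hc.2.2 hc.2.1
        have : vz (P b a) 2 = padicValInt (P b a) 2 := rfl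
        omega
    have h2 := (card_le_card hs).trans (card_union_le _ _)
    have h3 := card_insert_le b (insert a (K b a))
    have h4 := card_insert_le a (K b a)
    rw [card_univ] at h2
    have h5 : Fintype.card ι ≤
        2 * #{c | D3 b a c ∧ (k' b a : ℤ) ≤ |DD (P b a) (y b c) (y a c)|} := by omega
    have h6 : n ≤ 2 * (#{c | D3 b a c ∧ (k' b a : ℤ) ≤ |DD (P b a) (y b c) (y a c)|} : ℕ) := by
      rw [hn']; exact_mod_cast h5
    linarith
  have h2 : ∀ b a, b ≠ a → (k b a : ℝ) * Real.log (P b a) ≤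
      (k' b a : ℝ) * Real.log (P b a) + 4096 * R / n ^ 4 := by
    intro b a hab
    have h0 : 0 ≤ 4096 * R / n ^ 4 := by positivity
    have h00 : 0 ≤ (k' b a : ℝ) * Real.log (P b a) := mul_nonneg (Nat.cast_nonneg _) (hlog b a)
    by_cases hb : 4 * #(K b a) < Fintype.card ι
    · have : k' b a = k b a := if_pos ⟨hab, hb⟩
      rw [this]; linarith
    by_cases hk0 : k b a = 0
    · rw [hk0, Nat.cast_zero, zero_mul]; linarith
    have := Fact.mk (hP b a)
    have e0 : vz (P b a) 2 = padicValInt (P b a) 2 := rfl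
    have e1 : k b a = (e b a + 1) / 2 - 3 * padicValInt (P b a) 2 := rfl
    have h3 := h.clus hR (hP b a) (K b a) (k b a) (r := vz (P b a) (x a) + (e b a / 2 : ℕ) + 1)
      (σ := vz (P b a) (x a) + vz (P b a) 2) (fun c hc c' hc' hcc => ?_) (by omega) (by omega)
    · have h4 : n ≤ 4 * (#(K b a) : ℝ) := by rw [hn']; exact_mod_cast not_lt.1 hb
      have h5 : (n / 8) ^ 4 ≤ ((#(K b a) : ℝ) / 2) ^ 4 := pow_le_pow_left₀ (by positivity) (by linarith) 4
      have h6 := mul_le_mul_of_nonneg_left h5 (mul_nonneg (Nat.cast_nonneg (k b a)) (hlog b a))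
      have h7 : (k b a : ℝ) * Real.log (P b a) ≤ 4096 * R / n ^ 4 := by
        rw [le_div_iff₀ (by positivity)]; linarith
      linarith
    · simp only [hK, mem_filter, mem_univ, true_and] at hc hc'
      have p1 := hx a
      have p2 := hx c
      have p3 := hx c'
      have v1 := vz_sub (p := P b a) (a := x a + x c) (b := x a + x c')
        (sub_ne_zero.2 (h.inj.ne hcc)) (by ring)
      have v2 := vz_add (p := P b a) (a := x a + x c) (b := x a + x c')
        (c := x a + x c + (x a + x c')) (by positivity) rfl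
      have v3 := vz_sub (p := P b a) (a := x a + x c + (x a + x c')) (b := x c + x c')
        (c := 2 * x a) (by positivity) (by ring)
      rw [vz_mul two_ne_zero p1.ne'] at v3
      omega
  have h3 : J2 (fun b a => Real.log (q b a)) ≤ ∑ b, ∑ a,
      (2 * ((k' b a : ℝ) * Real.log (P b a)) + (8192 * R / n ^ 4 + 6 * Real.log 2)) := by
    refine sum_le_sum fun b _ => sum_le_sum fun a _ => ?_
    have := mul_nonneg (Nat.cast_nonneg (k' b a)) (hlog b a)
    have : 0 < Real.log 2 := Real.log_pos one_lt_two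
    split_ifs with hab
    · have h4 := h2 b a hab
      have h5 := log_pow_le (e := e b a) (hP b a)
      rw [← hPe b a hab] at h5
      have : 8192 * R / n ^ 4 = 2 * (4096 * R / n ^ 4) := by ring
      simp only [hk] at h4
      linarith
    · positivity
  simp only [sum_add_distrib, sum_const, card_univ, nsmul_eq_mul, ← mul_sum, ← hn'] at h3
  simp only [← sum_mul] at h1
  have h4 : ∑ b, ∑ a, (k' b a : ℝ) * Real.log (P b a) ≤ 4 * R / n ^ 2 := by
    rw [le_div_iff₀ (by positivity)]; linarith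
  have h5 : 8200 * R / n ^ 2 = 2 * (4 * R / n ^ 2) + n * (n * (8192 * R / n ^ 4)) := by
    field_simp; ring
  rw [h5]; nlinarith

end Pool.Agent.MP_df75fe_nt.En
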