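import Mathlib.Analysis.Complex.ExponentialBounds
import Mathlib.Data.Int.Sqrt
import Pool.Agent.MP_df75fe_nt.Main
import Pool.Agent.MP_df75fe_nt.h54.En4

/-! Sign energy: the statements for finite sets of integers. -/

set_option autoImplicit false
open Finset

namespace Pool.Agent.MP_df75fe_nt.En

lemma ss_of (X : Finset ℤ) (hs : ∀ a ∈ X, ∀ b ∈ X, a ≠ b → IsSquare (a + b))
    (h0 : ∀ a ∈ X, ∀ b ∈ X, a ≠ b → a + b ≠ 0) :
    SS (fun a : X => (a : ℤ)) (fun a c => Int.sqrt (a + c)) := by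
  have key : ∀ a c : X, a ≠ c → 0 < Int.sqrt (a + c) ∧ Int.sqrt (a + c) ^ 2 = a + c := by
    intro a c hac
    have hne : (a : ℤ) ≠ c := fun e => hac (Subtype.ext e)
    have h1 := h0 a a.2 c c.2 hne
    obtain ⟨k, hk⟩ := hs a a.2 c c.2 hne
    rw [hk] at h1 ⊢
    rw [Int.sqrt_eq, Int.natCast_natAbs, sq_abs, sq]
    exact ⟨abs_pos.2 fun e => h1 (by rw [e, mul_zero]), rfl⟩
  exact ⟨Subtype.val_injective, fun a c => by rw [add_comm], fun a c h => (key a c h).1,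
    fun a c h => (key a c h).2⟩

lemma J2_coe (X : Finset ℤ) (f : ℤ → ℤ → ℝ) :
    J2 (fun a c : X => f a c) = ∑ e ∈ X.offDiag, f e.1 e.2 := by
  have e : X.offDiag = (X ×ˢ X).filter fun e => e.1 ≠ e.2 := by
    ext e; simp [mem_offDiag, and_assoc]
  rw [e, sum_filter, sum_product, ← sum_coe_sort X]
  refine sum_congr rfl fun a _ => ?_
  rw [← sum_coe_sort X]
  exact sum_congr rfl fun c _ => if_congr Subtype.coe_ne_coe.symm rfl rfl

theorem disc (X : Finset ℤ) (hs : ∀ a ∈ X, ∀ b ∈ X, a ≠ b → IsSquare (a + b)) (h3 : 3 ≤ #X) :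
    ∏ e ∈ X.offDiag, (e.1 + e.2) ^ (#X - 3) ≤ ∏ e ∈ X.offDiag, |e.1 - e.2| ^ (#X - 2) := by
  have hd : ∀ e ∈ X.offDiag, 0 < |e.1 - e.2| := fun e he =>
    abs_pos.2 (sub_ne_zero.2 (mem_offDiag.1 he).2.2)
  by_cases h0 : ∀ a ∈ X, ∀ b ∈ X, a ≠ b → a + b ≠ 0
  · have h := (ss_of X hs h0).disc (by rwa [Fintype.card_coe])
    rw [J2_coe X fun a c => Real.log ((a + c : ℤ) : ℝ),
      J2_coe X fun a c => Real.log |((a - c : ℤ) : ℝ)|, Fintype.card_coe] at h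
    have hp : ∀ e ∈ X.offDiag, 0 < e.1 + e.2 := fun e he => by
      obtain ⟨h1, h2, h3⟩ := mem_offDiag.1 he
      exact lt_of_le_of_ne (hs _ h1 _ h2 h3).nonneg (h0 _ h1 _ h2 h3).symm
    have p1 : ∀ e ∈ X.offDiag, (0 : ℝ) < ((e.1 + e.2 : ℤ) : ℝ) ^ (#X - 3) := fun e he =>
      pow_pos (by exact_mod_cast hp e he) _
    have p2 : ∀ e ∈ X.offDiag, (0 : ℝ) < |((e.1 - e.2 : ℤ) : ℝ)| ^ (#X - 2) := fun e he =>
      pow_pos (by exact_mod_cast hd e he) _
    have h1 : ∏ e ∈ X.offDiag, ((e.1 + e.2 : ℤ) : ℝ) ^ (#X - 3) ≤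
        ∏ e ∈ X.offDiag, |((e.1 - e.2 : ℤ) : ℝ)| ^ (#X - 2) := by
      rw [← Real.log_le_log_iff (prod_pos p1) (prod_pos p2), Real.log_prod fun e he => (p1 e he).ne',
        Real.log_prod fun e he => (p2 e he).ne']
      simp only [Real.log_pow, ← mul_sum]
      rw [Nat.cast_sub h3, Nat.cast_sub (by omega : 2 ≤ #X)]
      exact_mod_cast h
    exact_mod_cast h1
  · push Not at h0
    obtain ⟨a, ha, b, hb, hab, e⟩ := h0
    have h1 : 1 ≤ ∏ e ∈ X.offDiag, |e.1 - e.2| ^ (#X - 2) :=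
      prod_pos fun e he => pow_pos (hd e he) _
    by_cases h4 : #X - 3 = 0
    · simpa [h4] using h1
    · rw [prod_eq_zero (i := (a, b)) (mem_offDiag.2 ⟨ha, hb, hab⟩) (by simp [e, h4])]
      omega

lemma card_le (X : Finset ℤ) (N : ℕ) (hN : 2 ≤ N) (hs : ∀ a ∈ X, ∀ b ∈ X, a ≠ b → IsSquare (a + b))
    (hX : ∀ a ∈ X, a ≤ N) (h2 : 2 ≤ #X) : (#X : ℝ) ≤ 45 * Real.log N := by
  have h := bound N X hs hX h2
  have n0 : (0 : ℝ) < #X := by exact_mod_cast (by omega : 0 < #X)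
  have N0 : (2 : ℝ) ≤ N := by exact_mod_cast hN
  have h1 : ((2 : ℝ) ^ 7) ^ #X ≤ 2 ^ 77 * (#X : ℝ) ^ 16 * (N : ℝ) ^ 2 := by exact_mod_cast h
  have h3 := Real.log_le_log (by positivity) h1
  rw [Real.log_mul (by positivity) (by positivity), Real.log_mul (by positivity) (by positivity)] at h3
  simp only [Real.log_pow] at h3
  have h4 := Real.log_le_sub_one_of_pos (show 0 < (#X : ℝ) / 2 ^ 3 by positivity)
  rw [Real.log_div n0.ne' (by positivity), Real.log_pow] at h4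
  have h5 := Real.log_le_log two_pos N0
  have h6 := mul_le_mul_of_nonneg_left Real.log_two_gt_d9.le n0.le
  push_cast at h3 h4
  linarith

/-- hypothesis on the chosen prime powers -/
lemma q_le {q : ℕ} {a b : ℤ} (hab : a ≠ b) (h1 : q = 1 ∨ IsPrimePow q)
    (h2 : (q : ℤ) * (Int.gcd a b : ℤ) ∣ a - b) {B : ℝ} (hB : |((a - b : ℤ) : ℝ)| ≤ B) :
    Real.log q ≤ Real.log B := by
  have h3 := Int.le_of_dvd (abs_pos.2 (sub_ne_zero.2 hab)) ((dvd_abs _ _).2 (dvd_of_mul_right_dvd h2))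
  have h4 : 0 < q := h1.elim (fun e => by omega) fun e => e.pos
  refine Real.log_le_log (by exact_mod_cast h4) (le_trans ?_ hB)
  exact_mod_cast h3

lemma smooth_pos (X : Finset ℤ) (N : ℕ) (hN : 2 ≤ N) (hX : ∀ a ∈ X, a ≤ (N : ℤ)) (hp : ∀ a ∈ X, 0 < a)
    (hs : ∀ a ∈ X, ∀ b ∈ X, a ≠ b → IsSquare (a + b)) (q : ℤ → ℤ → ℕ)
    (hq : ∀ a ∈ X, ∀ b ∈ X, a ≠ b →
      (q a b = 1 ∨ IsPrimePow (q a b)) ∧ (q a b : ℤ) * (Int.gcd a b : ℤ) ∣ a - b) :
    ∑ e ∈ X.offDiag, Real.log (q e.1 e.2) ≤ 1599200 * ((#X : ℝ) * √(#X : ℝ)) * Real.log N := by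
  have N0 : (1 : ℝ) ≤ N := by exact_mod_cast (by omega : 1 ≤ N)
  have hL := Real.log_nonneg N0
  have hH : ∀ a ∈ X, ∀ c ∈ X, |((a - c : ℤ) : ℝ)| ≤ N := fun a ha c hc => by
    have := hX a ha; have := hX c hc; have := hp a ha; have := hp c hc
    have : |a - c| ≤ N := abs_le.2 ⟨by omega, by omega⟩
    exact_mod_cast this
  set t := √(#X : ℝ) with ht
  have t0 : 0 ≤ t := Real.sqrt_nonneg _
  have t2 : (#X : ℝ) = t ^ 2 := (Real.sq_sqrt (Nat.cast_nonneg _)).symm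
  by_cases h16 : 16 ≤ #X
  · have h := ss_of X hs fun a ha b hb _ => (add_pos (hp a ha) (hp b hb)).ne'
    have t4 : 4 ≤ t := by
      have : (16 : ℝ) ≤ #X := by exact_mod_cast h16
      nlinarith
    have hn := card_le X N hN hs hX (by omega)
    have hK : 2 * Real.log 2 * t ^ 2 ≤ 63 * Real.log N := by
      have := mul_le_mul_of_nonneg_left Real.log_two_lt_d9.le (sq_nonneg t)
      nlinarith
    have hR : MI (fun a c : X => Int.sqrt (a + c)) ((6 + 3 * 63) * t ^ 7 * Real.log N) :=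
      fun P k hP => h.mi N0 (fun a c => hH a a.2 c c.2) (by linarith)
        (by rw [Fintype.card_coe, t2]) hK (by norm_num) P k hP
    have h1 := h.mainA (fun a => hp a a.2) hR (by rwa [Fintype.card_coe]) (fun b a => q b a)
      fun b a hab => hq b b.2 a a.2 fun e => hab (Subtype.ext e)
    rw [J2_coe X fun a c => Real.log (q a c), Fintype.card_coe, t2] at h1
    have e : 8200 * ((6 + 3 * 63) * t ^ 7 * Real.log N) / (t ^ 2) ^ 2 =
        1599000 * (t ^ 2 * t) * Real.log N := by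
      have : t ≠ 0 := by linarith
      field_simp; ring
    rw [e] at h1
    rw [t2]
    clear_value t
    have h2 := mul_le_mul_of_nonneg_left hK (sq_nonneg t)
    have h3 : t ^ 2 * Real.log N * 1 ≤ t ^ 2 * Real.log N * t :=
      mul_le_mul_of_nonneg_left (by linarith) (by positivity)
    nlinarith [mul_nonneg (sq_nonneg t) hL]
  · have h1 : ∑ e ∈ X.offDiag, Real.log (q e.1 e.2) ≤ #X.offDiag • Real.log N :=
      sum_le_card_nsmul _ _ _ fun e he => by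
        obtain ⟨h1, h2, h3⟩ := mem_offDiag.1 he
        exact q_le h3 (hq _ h1 _ h2 h3).1 (hq _ h1 _ h2 h3).2 (hH _ h1 _ h2)
    have h2 : (#X.offDiag : ℝ) ≤ #X * #X := by
      rw [offDiag_card]; exact_mod_cast Nat.sub_le _ _
    have t4 : t ≤ 4 := by
      have : (#X : ℝ) ≤ 16 := by exact_mod_cast (by omega : #X ≤ 16)
      nlinarith
    rw [nsmul_eq_mul] at h1
    refine h1.trans (mul_le_mul_of_nonneg_right (h2.trans ?_) hL)
    rw [t2]
    nlinarith [mul_nonneg (sq_nonneg t) t0]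

theorem smooth (X : Finset ℤ) (N : ℕ) (hN : 2 ≤ N) (hX : ∀ a ∈ X, a ≤ (N : ℤ))
    (hs : ∀ a ∈ X, ∀ b ∈ X, a ≠ b → IsSquare (a + b)) (q : ℤ → ℤ → ℕ)
    (hq : ∀ a ∈ X, ∀ b ∈ X, a ≠ b →
      (q a b = 1 ∨ IsPrimePow (q a b)) ∧ (q a b : ℤ) * (Int.gcd a b : ℤ) ∣ a - b) :
    ∑ e ∈ X.offDiag, Real.log (q e.1 e.2) ≤ 1600000 * ((#X : ℝ) * √(#X : ℝ)) * Real.log N := by
  have N0 : (2 : ℝ) ≤ N := by exact_mod_cast hN
  have hL := Real.log_nonneg (show (1 : ℝ) ≤ N by linarith)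
  set Y := X.filter (0 < ·) with hY
  set Z := X.filter (· ≤ 0) with hZ
  have hYX : Y ⊆ X := filter_subset _ _
  have h1 := smooth_pos Y N hN (fun a ha => hX a (hYX ha)) (fun a ha => (mem_filter.1 ha).2)
    (fun a ha b hb => hs a (hYX ha) b (hYX hb)) q fun a ha b hb => hq a (hYX ha) b (hYX hb)
  have h2 : #Z ≤ 1 := card_le_one.2 fun a ha b hb => by
    by_contra hab
    have := (hs a (mem_filter.1 ha).1 b (mem_filter.1 hb).1 hab).nonneg
    have := (mem_filter.1 ha).2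
    have := (mem_filter.1 hb).2
    omega
  have h3 : X.offDiag \ Y.offDiag ⊆ Z ×ˢ X ∪ X ×ˢ Z := fun e he => by
    simp only [mem_sdiff, mem_offDiag, hY, hZ, mem_filter, mem_union, mem_product] at he ⊢
    obtain ⟨⟨a1, a2, a3⟩, a4⟩ := he
    by_cases b1 : e.1 ≤ 0
    · exact Or.inl ⟨⟨a1, b1⟩, a2⟩
    · exact Or.inr ⟨a1, a2, by by_contra b2; exact a4 ⟨⟨a1, by omega⟩, ⟨a2, by omega⟩, a3⟩⟩
  have h4 : #(X.offDiag \ Y.offDiag) ≤ 2 * #X := by
    have := (card_le_card h3).trans (card_union_le _ _)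
    rw [card_product, card_product] at this
    nlinarith
  have h5 : ∑ e ∈ X.offDiag \ Y.offDiag, Real.log (q e.1 e.2) ≤
      #(X.offDiag \ Y.offDiag) • (2 * Real.log N) :=
    sum_le_card_nsmul _ _ _ fun e he => by
      obtain ⟨a1, a2, a3⟩ := mem_offDiag.1 (mem_sdiff.1 he).1
      have := (hs _ a1 _ a2 a3).nonneg
      have := hX _ a1
      have := hX _ a2
      have b1 : |e.1 - e.2| ≤ 2 * N := abs_le.2 ⟨by omega, by omega⟩
      have b2 := q_le a3 (hq _ a1 _ a2 a3).1 (hq _ a1 _ a2 a3).2 (B := 2 * N) (by exact_mod_cast b1)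
      rw [Real.log_mul two_ne_zero (by linarith)] at b2
      have := Real.log_le_log two_pos N0
      linarith
  rw [← sum_sdiff (offDiag_mono hYX)]
  have h6 : (#Y : ℝ) ≤ #X := by exact_mod_cast card_le_card hYX
  have h7 : (#Y : ℝ) * √(#Y : ℝ) ≤ #X * √(#X : ℝ) :=
    mul_le_mul h6 (Real.sqrt_le_sqrt h6) (Real.sqrt_nonneg _) (Nat.cast_nonneg _)
  have h8 : (#X : ℝ) ≤ #X * √(#X : ℝ) := by
    rcases Nat.eq_zero_or_pos #X with e | e
    · simp [e]
    · exact le_mul_of_one_le_right (Nat.cast_nonneg _) (Real.one_le_sqrt.2 (by exact_mod_cast e))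
  have h9 : (#(X.offDiag \ Y.offDiag) : ℝ) ≤ 2 * #X := by exact_mod_cast h4
  rw [nsmul_eq_mul] at h5
  have := mul_le_mul_of_nonneg_right h7 hL
  have := mul_le_mul_of_nonneg_right h8 hL
  have := mul_le_mul_of_nonneg_right h9 hL
  have := mul_nonneg (Nat.cast_nonneg (α := ℝ) #X) hL
  linarith

end Pool.Agent.MP_df75fe_nt.En
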