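import Pool.Agent.MP_df75fe_nt.h54.En4

/-! Sign energy: the star inequality at one centre. -/

set_option autoImplicit false
set_option linter.unusedSectionVars false
open Finset

namespace Pool.Agent.MP_df75fe_nt.En

section
variable {ι H : Type} [Fintype ι] [DecidableEq ι] [NormedAddCommGroup H] [InnerProductSpace ℝ H]
variable {z : ι → ι → ι → H} {u : ι → ι → ι → ι → ℝ} {l : ι → ι → ℝ} {L κ : ℝ}

lemma Dat.star_gen (h : Dat z u l κ) (hL : 0 ≤ L) (hl : ∀ a a', l a a' ≤ L) (b : ι) (g : ι → ι → ℝ)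
    (hg : ∀ a c, |g a c| ≤ 1) (g0 : ∀ a c, ¬ D3 b a c → g a c = 0) {t K : ℝ} (ht : 1 ≤ t)
    (hn : (Fintype.card ι : ℝ) = t ^ 2) (hK : κ * t ^ 2 ≤ K * L) (hK0 : 0 ≤ K) :
    ∑ a, inner ℝ (∑ c, g a c • z b a c) (∑ c, g a c • z b a c) +
      ∑ a, ∑ c, ∑ c', g a c * g a c' * u b a c c' ≤ (7 / 2 + 2 * K) * t ^ 5 * L := by
  have ht0 : 0 < t := by linarith
  have hκ := h.hκ
  have h3 : I3 ι ≤ t ^ 6 := by have := I3_le (ι := ι); rw [hn] at this; nlinarith
  have h4 : κ * I4 ι ≤ K * L * t ^ 6 := by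
    rw [I4_eq, hn]
    have := I3_nonneg (ι := ι)
    calc κ * ((t ^ 2 - 3) * I3 ι) ≤ κ * t ^ 2 * I3 ι := by nlinarith [mul_nonneg hκ this]
      _ ≤ K * L * t ^ 6 := mul_le_mul hK h3 this (mul_nonneg hK0 hL)
  have hT : T z (fun c a => g a c) / t ≤ 2 * (2 + K) * t ^ 5 * L := by
    have := h.T_le g hg (fun a => g0 a a fun e => e.2.2 rfl)
    have := J3_le hl
    have := mul_le_mul_of_nonneg_left h3 hL
    rw [div_le_iff₀ ht0]; nlinarith
  have h1 : ∑ a, inner ℝ (∑ c, g a c • z b a c) (∑ c, g a c • z b a c) +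
      ∑ c, ∑ c', inner ℝ (z c c' b) (∑ a, (g a c * g a c') • z c c' a) +
      ∑ a, ∑ c, ∑ c', g a c * g a c' * u b a c c' ≤ (t ^ 2) ^ 2 * L + (t ^ 2) ^ 3 * κ := by
    have e2 : ∑ c, ∑ c', inner ℝ (z c c' b) (∑ a, (g a c * g a c') • z c c' a) =
        ∑ a, ∑ c, ∑ c', (g a c * g a c') * inner ℝ (z c c' b) (z c c' a) := by
      simp only [inner_sum, real_inner_smul_right]
      exact (sum_congr rfl fun c _ => sum_comm).trans sum_comm
    have e3 : (Fintype.card ι : ℝ) ^ 2 * L + (Fintype.card ι : ℝ) ^ 3 * κ =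
        ∑ _a : ι, ∑ c : ι, ∑ c' : ι, ((if c = c' then L else 0) + κ) := by
      simp [sum_add_distrib]; ring
    rw [e2, ← hn, e3]
    simp only [inner_sum_sum, ← sum_add_distrib]
    refine sum_le_sum fun a _ => sum_le_sum fun c _ => sum_le_sum fun c' _ => ?_
    have hF := abs_mul_le_one (hg a c) (hg a c')
    by_cases hz : g a c * g a c' = 0
    · rw [hz]; split_ifs <;> linarith
    · have d1 : D3 b a c := by by_contra e; simp [g0 a c e] at hz
      have d2 : D3 b a c' := by by_contra e; simp [g0 a c' e] at hz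
      rcases h.point b a c c' hF with h1 | ⟨-, hc, h4⟩
      · rw [if_neg (fun e : b = a ∧ D3 c c' b => d1.1 e.1)] at h1
        have i1 : (if c = c' ∧ D3 b a c then l b a else 0) ≤ if c = c' then L else 0 := by
          by_cases e : c = c' <;> simp [e, d2, hl]
        have i2 : (if D4 b a c c' then κ else 0) ≤ κ := by split_ifs <;> linarith
        linarith
      · exact absurd ⟨d1.1, hc, d1.2.1, d2.2.1, d1.2.2, d2.2.2⟩ h4
  have h2 : -∑ c, ∑ c', inner ℝ (z c c' b) (∑ a, (g a c * g a c') • z c c' a) ≤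
      (t * (t ^ 2) ^ 2 * L + T z (fun c a => g a c) / t) / 2 := by
    have e : t * (Fintype.card ι : ℝ) ^ 2 * L = ∑ _c : ι, ∑ _c' : ι, t * L := by simp; ring
    unfold T
    rw [← hn, e]
    simp only [← sum_neg_distrib, sum_div, ← sum_add_distrib]
    refine sum_le_sum fun c _ => sum_le_sum fun c' _ => (neg_inner_le _ _ ht0).trans ?_
    have := mul_le_mul_of_nonneg_left ((h.nz c c' b).trans (hl c c')) ht0.le
    linarith
  have h7 := mul_le_mul_of_nonneg_right hK (pow_nonneg ht0.le 4)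
  have h9 : t ^ 4 * L ≤ t ^ 5 * L := mul_le_mul_of_nonneg_right (pow_le_pow_right₀ ht (by norm_num)) hL
  have h10 := mul_le_mul_of_nonneg_left h9 hK0
  nlinarith

lemma Dat.star_one (h : Dat z u l κ) (hL : 0 ≤ L) (hl : ∀ a a', l a a' ≤ L) (b : ι) (g : ι → ι → ℝ)
    (hg : ∀ a c, |g a c| ≤ 1) (g0 : ∀ a c, ¬ D3 b a c → g a c = 0) {t K : ℝ} (ht : 1 ≤ t)
    (hn : (Fintype.card ι : ℝ) = t ^ 2) (hK : κ * t ^ 2 ≤ K * L) (hK0 : 0 ≤ K) :
    ∑ a, inner ℝ (∑ c, g a c • z b a c) (∑ c, g a c • z b a c) ≤ (7 + 4 * K) * t ^ 5 * L := by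
  have h1 := h.star_gen hL hl b g hg g0 ht hn hK hK0
  have h2 := h.star_gen hL hl b (fun a c => if D3 b a c then 1 else 0)
    (fun a c => by split_ifs <;> simp) (fun a c e => if_neg e) ht hn hK hK0
  have h3 : 0 ≤ ∑ a, inner ℝ (∑ c, (if D3 b a c then (1 : ℝ) else 0) • z b a c)
      (∑ c, (if D3 b a c then (1 : ℝ) else 0) • z b a c) :=
    sum_nonneg fun _ _ => real_inner_self_nonneg
  have h4 : -∑ a, ∑ c, ∑ c', (if D3 b a c then (1 : ℝ) else 0) * (if D3 b a c' then 1 else 0) *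
      u b a c c' ≤ ∑ a, ∑ c, ∑ c', g a c * g a c' * u b a c c' := by
    simp only [← sum_neg_distrib]
    refine sum_le_sum fun a _ => sum_le_sum fun c _ => sum_le_sum fun c' _ => ?_
    by_cases h4 : D4 b a c c'
    · rw [if_pos ⟨h4.1, h4.2.2.1, h4.2.2.2.2.1⟩, if_pos ⟨h4.1, h4.2.2.2.1, h4.2.2.2.2.2⟩]
      have := (abs_le.1 (abs_mul_le_one (hg a c) (hg a c'))).1
      have := h.u0 b a c c'
      nlinarith
    · simp [h.u1 _ _ _ _ h4]
  linarith

end

variable {ι : Type} [Fintype ι] [DecidableEq ι] {x : ι → ℤ} {y : ι → ι → ℤ}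

lemma low (y : ι → ι → ℤ) {M p k : ℕ} (hp : p.Prime) (h1 : p < M) (h2 : k ≤ M) (b a : ι) :
    (k : ℝ) * Real.log p * (#{c | D3 b a c ∧ (k : ℤ) ≤ |DD p (y b c) (y a c)|} : ℝ) ^ 2 ≤
      inner ℝ (∑ c, (if D3 b a c then ((DD p (y b c) (y a c)).sign : ℝ) else 0) • zz y M b a c)
        (∑ c, (if D3 b a c then ((DD p (y b c) (y a c)).sign : ℝ) else 0) • zz y M b a c) := by
  set V := ∑ c, (if D3 b a c then ((DD p (y b c) (y a c)).sign : ℝ) else 0) • zz y M b a c with hV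
  set n : ℝ := ((#{c | D3 b a c ∧ (k : ℤ) ≤ |DD p (y b c) (y a c)|} : ℕ) : ℝ) with hn'
  have hc : ∀ j : Fin k, √(lg p) * n ≤ V (⟨p, h1⟩, Fin.castLE h2 j) := by
    intro j
    rw [hV, hn', card_filter, WithLp.ofLp_sum, Finset.sum_apply]
    push_cast
    rw [mul_sum]
    refine sum_le_sum fun c _ => ?_
    have hs := Real.sqrt_nonneg (lg p)
    by_cases h3 : D3 b a c
    · simp only [zz, vec, WithLp.ofLp_smul, Pi.smul_apply, smul_eq_mul, Fin.val_castLE,
        h3, true_and, ee, if_true]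
      have hj := j.2
      set D := DD p (y b c) (y a c)
      have s2 : 0 ≤ (D.sign : ℝ) * D.sign := mul_self_nonneg _
      by_cases h5 : (k : ℤ) ≤ |D|
      · have s1 : (D.sign : ℝ) * D.sign = 1 := by
          have : D ≠ 0 := by rintro e; rw [e, abs_zero] at h5; omega
          rcases lt_or_gt_of_ne this with e | e
          · simp [Int.sign_eq_neg_one_of_neg e]
          · simp [Int.sign_eq_one_of_pos e]
        rw [if_pos h5, if_pos (show ((j : ℕ) : ℤ) < |D| by omega)]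
        exact le_of_eq (by linear_combination (-√(lg p)) * s1)
      · rw [if_neg h5]
        have := mul_nonneg hs s2
        split_ifs <;> nlinarith
    · simp [h3]
  rw [PiLp.inner_apply]
  have hi : Function.Injective fun j : Fin k =>
      ((⟨p, h1⟩, Fin.castLE h2 j) : Fin M × Fin M) := fun j j' e => by
    simpa using e
  refine le_trans ?_ (sum_le_sum_of_subset_of_nonneg (subset_univ (univ.image fun j : Fin k =>
    ((⟨p, h1⟩, Fin.castLE h2 j) : Fin M × Fin M))) fun i _ _ => real_inner_self_nonneg)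
  rw [sum_image fun j _ j' _ e => hi e]
  have e : (k : ℝ) * Real.log p * n ^ 2 = ∑ _j : Fin k, (√(lg p) * n) * (√(lg p) * n) := by
    have := Real.mul_self_sqrt (lg_nonneg p)
    rw [sum_const, card_univ, Fintype.card_fin, nsmul_eq_mul]
    have e2 : lg p = Real.log p := if_pos hp
    rw [← e2]
    linear_combination (-(k : ℝ) * n ^ 2) * this
  rw [e]
  refine sum_le_sum fun j _ => ?_
  have h0 : 0 ≤ √(lg p) * n := by positivity
  simp only [RCLike.inner_apply, conj_trivial]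
  exact mul_le_mul (hc j) (hc j) h0 (h0.trans (hc j))

/-- the conclusion of the main inequality at one centre -/
def MO (y : ι → ι → ℤ) (R : ℝ) : Prop := ∀ (b : ι) (P k : ι → ℕ), (∀ a, (P a).Prime) →
  ∑ a, (k a : ℝ) * Real.log (P a) *
    (#{c | D3 b a c ∧ (k a : ℤ) ≤ |DD (P a) (y b c) (y a c)|} : ℝ) ^ 2 ≤ R

lemma SS.mo (h : SS x y) {Hh : ℝ} (hH1 : 1 ≤ Hh) (hH : ∀ a c, |((x a - x c : ℤ) : ℝ)| ≤ Hh)
    {t K : ℝ} (ht : 1 ≤ t) (hn : (Fintype.card ι : ℝ) = t ^ 2)
    (hK : 2 * Real.log 2 * t ^ 2 ≤ K * Real.log Hh) (hK0 : 0 ≤ K) :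
    MO y ((7 + 4 * K) * t ^ 5 * Real.log Hh) := by
  intro b P k hP
  obtain ⟨M, hM, hd⟩ := h.exists_dat fun _ c => P c + k c
  have hl : ∀ a c, Real.log |((x a - x c : ℤ) : ℝ)| ≤ Real.log Hh := fun a c => by
    rcases (abs_nonneg ((x a - x c : ℤ) : ℝ)).eq_or_lt with e | e
    · rw [← e, Real.log_zero]; exact Real.log_nonneg hH1
    · exact Real.log_le_log e (hH a c)
  refine le_trans (sum_le_sum fun a _ => low y (hP a) ?_ ?_ b a)
    (hd.star_one (Real.log_nonneg hH1) hl b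
      (fun a c => if D3 b a c then ((DD (P a) (y b c) (y a c)).sign : ℝ) else 0)
      (fun a c => ?_) (fun a c h3 => if_neg h3) ht hn hK hK0)
  · have := hM a a; omega
  · have := hM a a; omega
  · split_ifs
    · rcases Int.sign_trichotomy (DD (P a) (y b c) (y a c)) with e | e | e <;> simp [e]
    · simp

lemma SS.clus_one (h : SS x y) {R : ℝ} (hR : MO y R) {p : ℕ} (hp : p.Prime) (K : Finset ι) (k : ℕ)
    {r σ : ℤ} (h1 : ∀ c ∈ K, ∀ c' ∈ K, c ≠ c' → r ≤ vz p (x c - x c') ∧ vz p (x c + x c') ≤ σ)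
    (hk : (k : ℤ) ≤ r - σ - 2 * vz p 2) (h4 : 4 ≤ #K) :
    (k : ℝ) * Real.log p * ((#K : ℝ) / 2) ^ 3 ≤ R := by
  obtain ⟨b, hb⟩ := card_pos.1 (show 0 < #K by omega)
  refine le_trans ?_ (hR b (fun _ => p) (fun _ => k) fun _ => hp)
  have hl : 0 ≤ (k : ℝ) * Real.log p := mul_nonneg (Nat.cast_nonneg _) (Real.log_natCast_nonneg p)
  have h5 : (4 : ℝ) ≤ #K := by exact_mod_cast h4
  have e : (k : ℝ) * Real.log p * ((#K : ℝ) / 2) ^ 3 ≤
      ∑ _a ∈ K.erase b, (k : ℝ) * Real.log p * ((#K : ℝ) / 2) ^ 2 := by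
    rw [sum_const, card_erase_of_mem hb, nsmul_eq_mul, Nat.cast_sub (by omega)]
    have : 0 ≤ (k : ℝ) * Real.log p * ((#K : ℝ) / 2) ^ 2 := by positivity
    push_cast
    nlinarith
  refine e.trans ((sum_le_sum fun a ha => ?_).trans (sum_le_sum_of_subset_of_nonneg
    (subset_univ (K.erase b)) fun a _ _ => mul_nonneg hl (sq_nonneg _)))
  obtain ⟨hab, ha⟩ := mem_erase.1 ha
  refine mul_le_mul_of_nonneg_left (pow_le_pow_left₀ (by positivity) ?_ 2) hl
  have hs : (K.erase b).erase a ⊆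
      ({c | D3 b a c ∧ (k : ℤ) ≤ |DD p (y b c) (y a c)|} : Finset ι) := by
    intro c hc
    obtain ⟨c1, hc⟩ := mem_erase.1 hc
    obtain ⟨c2, hc⟩ := mem_erase.1 hc
    have h3 : D3 b a c := ⟨hab.symm, c2.symm, c1.symm⟩
    refine mem_filter.2 ⟨mem_univ _, h3, ?_⟩
    rw [h.abs_DD hp h3]
    have := (h1 b hb a ha hab.symm).1
    have := (h1 a ha c hc c1.symm).2
    omega
  have h6 := card_le_card hs
  rw [card_erase_of_mem (mem_erase.2 ⟨hab, ha⟩), card_erase_of_mem hb] at h6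
  have h7 : #K ≤ 2 * #{c | D3 b a c ∧ (k : ℤ) ≤ |DD p (y b c) (y a c)|} := by omega
  have h8 : (#K : ℝ) ≤ 2 * (#{c | D3 b a c ∧ (k : ℤ) ≤ |DD p (y b c) (y a c)|} : ℕ) := by
    exact_mod_cast h7
  linarith

lemma SS.main_one (h : SS x y) (hx : ∀ a, x a ≠ 0) {R : ℝ} (hR : MO y R)
    (hn : 16 ≤ Fintype.card ι) (b : ι) (q : ι → ℕ) (hq : ∀ a, b ≠ a → (q a = 1 ∨ IsPrimePow (q a)) ∧
      (q a : ℤ) * (Int.gcd (x b) (x a) : ℤ) ∣ x b - x a) :
    ∑ a, (if b ≠ a then Real.log (q a) else 0) ≤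
      1032 * R / (Fintype.card ι : ℝ) ^ 2 + 6 * Real.log 2 * (Fintype.card ι : ℝ) := by
  have hc : ∀ a, ∃ p e : ℕ, p.Prime ∧ (b ≠ a → q a = p ^ e) := fun a => by
    by_cases hab : b = a
    · exact ⟨2, 0, Nat.prime_two, fun e => absurd hab e⟩
    · rcases (hq a hab).1 with e | e
      · exact ⟨2, 0, Nat.prime_two, fun _ => e⟩
      · obtain ⟨p, k, hp, -, e⟩ := (isPrimePow_nat_iff _).1 e
        exact ⟨p, k, hp, fun _ => e.symm⟩
  choose P e hP hPe using hc
  have hs0 : ∀ a c, a ≠ c → 0 < x a + x c := fun a c e => by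
    rw [← h.sq a c e]; exact pow_pos (h.pos a c e) 2
  set n : ℝ := ((Fintype.card ι : ℕ) : ℝ) with hn'
  have hn0 : (16 : ℝ) ≤ n := by rw [hn']; exact_mod_cast hn
  set k : ι → ℕ := fun a => (e a + 1) / 2 - 3 * padicValInt (P a) 2 with hk
  set K : ι → Finset ι := fun a =>
    {c | c ≠ a ∧ vz (P a) (x a) + (e a / 2 : ℕ) + 1 ≤ vz (P a) (x a + x c)} with hK
  set k' : ι → ℕ := fun a => if b ≠ a ∧ 4 * #(K a) < Fintype.card ι then k a else 0 with hk'
  have hR0 : 0 ≤ R := le_trans (by simp) (hR b (fun _ => 2) (fun _ => 0) fun _ => Nat.prime_two)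
  have hlog : ∀ a, 0 ≤ Real.log (P a) := fun a => Real.log_natCast_nonneg _
  have h1 : ∑ a, (k' a : ℝ) * Real.log (P a) * (n / 2) ^ 2 ≤ R := by
    refine le_trans (sum_le_sum fun a _ => ?_) (hR b P k' hP)
    by_cases h0 : k' a = 0
    · simp [h0]
    refine mul_le_mul_of_nonneg_left (pow_le_pow_left₀ (by positivity) ?_ 2)
      (mul_nonneg (Nat.cast_nonneg _) (hlog a))
    have hb : b ≠ a ∧ 4 * #(K a) < Fintype.card ι := by
      by_contra hb; exact h0 (if_neg hb)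
    have e1 : k' a = (e a + 1) / 2 - 3 * padicValInt (P a) 2 := if_pos hb
    have hv := vz_diff (e := e a) (hP a) (hx a) (hx b) (h.inj.ne hb.1) (by omega)
      (by rw [← hPe a hb.1]; exact (hq a hb.1).2)
    have hs : (univ : Finset ι) ⊆
        ({c | D3 b a c ∧ (k' a : ℤ) ≤ |DD (P a) (y b c) (y a c)|} : Finset ι) ∪
        insert b (insert a (K a)) := by
      intro c _
      by_cases hc : c ∈ insert b (insert a (K a))
      · exact mem_union_right _ hc
      · simp only [mem_insert, not_or, hK, mem_filter, mem_univ, true_and, not_and, not_le] at hc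
        have h3 : D3 b a c := ⟨hb.1, Ne.symm hc.1, Ne.symm hc.2.1⟩
        refine mem_union_left _ (mem_filter.2 ⟨mem_univ _, h3, ?_⟩)
        rw [h.abs_DD (hP a) h3]
        have := hc.2.2 hc.2.1
        have : vz (P a) 2 = padicValInt (P a) 2 := rfl
        omega
    have h2 := (card_le_card hs).trans (card_union_le _ _)
    have h3 := card_insert_le b (insert a (K a))
    have h4 := card_insert_le a (K a)
    rw [card_univ] at h2
    have h5 : Fintype.card ι ≤ 2 * #{c | D3 b a c ∧ (k' a : ℤ) ≤ |DD (P a) (y b c) (y a c)|} := by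
      omega
    have h6 : n ≤ 2 * (#{c | D3 b a c ∧ (k' a : ℤ) ≤ |DD (P a) (y b c) (y a c)|} : ℕ) := by
      rw [hn']; exact_mod_cast h5
    linarith
  have h2 : ∀ a, b ≠ a → (k a : ℝ) * Real.log (P a) ≤
      (k' a : ℝ) * Real.log (P a) + 512 * R / n ^ 3 := by
    intro a hab
    have h0 : 0 ≤ 512 * R / n ^ 3 := by positivity
    have h00 : 0 ≤ (k' a : ℝ) * Real.log (P a) := mul_nonneg (Nat.cast_nonneg _) (hlog a)
    by_cases hb : 4 * #(K a) < Fintype.card ι
    · have : k' a = k a := if_pos ⟨hab, hb⟩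
      rw [this]; linarith
    by_cases hk0 : k a = 0
    · rw [hk0, Nat.cast_zero, zero_mul]; linarith
    have := Fact.mk (hP a)
    have e0 : vz (P a) 2 = padicValInt (P a) 2 := rfl
    have e1 : k a = (e a + 1) / 2 - 3 * padicValInt (P a) 2 := rfl
    have h3 := h.clus_one hR (hP a) (K a) (k a) (r := vz (P a) (x a) + (e a / 2 : ℕ) + 1)
      (σ := vz (P a) (x a) + vz (P a) 2) (fun c hc c' hc' hcc => ?_) (by omega) (by omega)
    · have h4 : n ≤ 4 * (#(K a) : ℝ) := by rw [hn']; exact_mod_cast not_lt.1 hb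
      have h5 : (n / 8) ^ 3 ≤ ((#(K a) : ℝ) / 2) ^ 3 :=
        pow_le_pow_left₀ (by positivity) (by linarith) 3
      have h6 := mul_le_mul_of_nonneg_left h5 (mul_nonneg (Nat.cast_nonneg (k a)) (hlog a))
      have h7 : (k a : ℝ) * Real.log (P a) ≤ 512 * R / n ^ 3 := by
        rw [le_div_iff₀ (by positivity)]; linarith
      linarith
    · simp only [hK, mem_filter, mem_univ, true_and] at hc hc'
      have p1 := hs0 a c hc.1.symm
      have p2 := hs0 a c' hc'.1.symm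
      have v1 := vz_sub (p := P a) (a := x a + x c) (b := x a + x c')
        (sub_ne_zero.2 (h.inj.ne hcc)) (by ring)
      have v2 := vz_add (p := P a) (a := x a + x c) (b := x a + x c')
        (c := x a + x c + (x a + x c')) (add_pos p1 p2).ne' rfl
      have v3 := vz_sub (p := P a) (a := x a + x c + (x a + x c')) (b := x c + x c')
        (c := 2 * x a) (mul_ne_zero two_ne_zero (hx a)) (by ring)
      rw [vz_mul two_ne_zero (hx a)] at v3
      omega
  have h3 : ∑ a, (if b ≠ a then Real.log (q a) else 0) ≤ ∑ a,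
      (2 * ((k' a : ℝ) * Real.log (P a)) + (1024 * R / n ^ 3 + 6 * Real.log 2)) := by
    refine sum_le_sum fun a _ => ?_
    have := mul_nonneg (Nat.cast_nonneg (k' a)) (hlog a)
    have : 0 < Real.log 2 := Real.log_pos one_lt_two
    split_ifs with hab
    · have h4 := h2 a hab
      have h5 := log_pow_le (e := e a) (hP a)
      rw [← hPe a hab] at h5
      have : 1024 * R / n ^ 3 = 2 * (512 * R / n ^ 3) := by ring
      simp only [hk] at h4
      linarith
    · positivity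
  simp only [sum_add_distrib, sum_const, card_univ, nsmul_eq_mul, ← mul_sum, ← hn'] at h3
  simp only [← sum_mul] at h1
  have h4 : ∑ a, (k' a : ℝ) * Real.log (P a) ≤ 4 * R / n ^ 2 := by
    rw [le_div_iff₀ (by positivity)]; linarith
  have h5 : 1032 * R / n ^ 2 = 2 * (4 * R / n ^ 2) + n * (1024 * R / n ^ 3) := by
    field_simp; ring
  rw [h5]; nlinarith

end Pool.Agent.MP_df75fe_nt.En
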