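import Pool.Agent.MP_df75fe_nt.h54.En5
import Pool.Agent.MP_df75fe_nt.h54.En6

/-! Sign energy: the statement at one element of the set. -/

set_option autoImplicit false
open Finset

namespace Pool.Agent.MP_df75fe_nt.En

lemma diff_le {X : Finset ℤ} {N : ℕ} (hX : ∀ a ∈ X, a ≤ (N : ℤ))
    (hs : ∀ a ∈ X, ∀ b ∈ X, a ≠ b → IsSquare (a + b)) {a c : ℤ} (ha : a ∈ X) (hc : c ∈ X) :
    |((a - c : ℤ) : ℝ)| ≤ 2 * N := by
  have : |a - c| ≤ 2 * N := by
    by_cases e : a = c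
    · rw [e, sub_self, abs_zero]; positivity
    · have := (hs a ha c hc e).nonneg
      have := hX a ha
      have := hX c hc
      exact abs_le.2 ⟨by omega, by omega⟩
  exact_mod_cast this

lemma one_aux (X : Finset ℤ) (N : ℕ) (hN : 2 ≤ N) (hX : ∀ a ∈ X, a ≤ (N : ℤ)) (hp : ∀ a ∈ X, a ≠ 0)
    (hs : ∀ a ∈ X, ∀ b ∈ X, a ≠ b → IsSquare (a + b)) (h0 : ∀ a ∈ X, ∀ b ∈ X, a ≠ b → a + b ≠ 0)
    {b : ℤ} (hb : b ∈ X) (q : ℤ → ℕ) (hq : ∀ a ∈ X, a ≠ b →
      (q a = 1 ∨ IsPrimePow (q a)) ∧ (q a : ℤ) * (Int.gcd b a : ℤ) ∣ b - a) :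
    ∑ a ∈ X.erase b, Real.log (q a) ≤ 267500 * √(#X : ℝ) * Real.log (2 * N) := by
  have N0 : (2 : ℝ) ≤ N := by exact_mod_cast hN
  have N1 : (1 : ℝ) ≤ 2 * N := by linarith
  have hL := Real.log_nonneg N1
  set t := √(#X : ℝ) with ht
  have t0 : 0 ≤ t := Real.sqrt_nonneg _
  have t2 : (#X : ℝ) = t ^ 2 := (Real.sq_sqrt (Nat.cast_nonneg _)).symm
  by_cases h16 : 16 ≤ #X
  · have h := ss_of X hs h0
    have t4 : 4 ≤ t := by
      have : (16 : ℝ) ≤ #X := by exact_mod_cast h16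
      nlinarith
    have hn := card_le X N hN hs hX (by omega)
    have hK : 2 * Real.log 2 * t ^ 2 ≤ 63 * Real.log (2 * N) := by
      have := mul_le_mul_of_nonneg_left Real.log_two_lt_d9.le (sq_nonneg t)
      have := Real.log_le_log (by linarith) (show (N : ℝ) ≤ 2 * N by linarith)
      have := Real.log_nonneg (show (1 : ℝ) ≤ N by linarith)
      nlinarith
    have hR := h.mo N1 (fun a c => diff_le hX hs a.2 c.2) (by linarith)
      (by rw [Fintype.card_coe, t2]) hK (by norm_num)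
    have h1 := h.main_one (fun a => hp a a.2) hR (by rwa [Fintype.card_coe]) ⟨b, hb⟩ (fun a => q a)
      fun a hab => hq a a.2 fun e => hab (Subtype.ext e.symm)
    have e1 : ∑ a : X, (if (⟨b, hb⟩ : X) ≠ a then Real.log (q a) else 0) =
        ∑ a ∈ X.erase b, Real.log (q a) := by
      rw [← filter_ne' X b, sum_filter, ← sum_coe_sort X]
      exact sum_congr rfl fun a _ => if_congr ⟨fun e e' => e (Subtype.ext e'.symm),
        fun e e' => e (congrArg Subtype.val e').symm⟩ rfl rfl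
    rw [e1, Fintype.card_coe, t2] at h1
    have e : 1032 * ((7 + 4 * 63) * t ^ 5 * Real.log (2 * N)) / (t ^ 2) ^ 2 =
        267288 * t * Real.log (2 * N) := by
      have : t ≠ 0 := by linarith
      field_simp; ring
    rw [e] at h1
    clear_value t
    nlinarith [mul_le_mul_of_nonneg_right t4 hL]
  · have h1 : ∑ a ∈ X.erase b, Real.log (q a) ≤ #(X.erase b) • Real.log (2 * N) :=
      sum_le_card_nsmul _ _ _ fun a ha => by
        obtain ⟨h1, h2⟩ := mem_erase.1 ha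
        exact q_le h1.symm (hq _ h2 h1).1 (hq _ h2 h1).2 (diff_le hX hs hb h2)
    have h2 : (#(X.erase b) : ℝ) ≤ #X := by exact_mod_cast card_erase_le
    have t4 : t ≤ 4 := by
      have : (#X : ℝ) ≤ 16 := by exact_mod_cast (by omega : #X ≤ 16)
      nlinarith
    rw [nsmul_eq_mul] at h1
    refine h1.trans (mul_le_mul_of_nonneg_right (h2.trans ?_) hL)
    rw [t2]
    nlinarith

theorem smooth_one (X : Finset ℤ) (N : ℕ) (hN : 2 ≤ N) (hX : ∀ a ∈ X, a ≤ (N : ℤ))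
    (hs : ∀ a ∈ X, ∀ b ∈ X, a ≠ b → IsSquare (a + b)) (b : ℤ) (hb : b ∈ X) (q : ℤ → ℕ)
    (hq : ∀ a ∈ X, a ≠ b →
      (q a = 1 ∨ IsPrimePow (q a)) ∧ (q a : ℤ) * (Int.gcd a b : ℤ) ∣ a - b) :
    ∑ a ∈ X.erase b, Real.log (q a) ≤ 540000 * √(#X : ℝ) * Real.log N := by
  have N0 : (2 : ℝ) ≤ N := by exact_mod_cast hN
  have hL := Real.log_nonneg (show (1 : ℝ) ≤ N by linarith)
  have hL2 : Real.log (2 * N) ≤ 2 * Real.log N := by
    rw [Real.log_mul two_ne_zero (by linarith)]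
    have := Real.log_le_log two_pos N0
    linarith
  have t1 : 1 ≤ √(#X : ℝ) := Real.one_le_sqrt.2 (by exact_mod_cast card_pos.2 ⟨b, hb⟩)
  by_cases b0 : b = 0
  · rw [sum_eq_zero fun a ha => ?_]
    · positivity
    obtain ⟨h1, h2⟩ := mem_erase.1 ha
    have h3 := (hq a h2 h1).2
    rw [b0] at h1 h3
    rw [sub_zero, Int.gcd_zero_right, Int.natCast_natAbs, ← dvd_abs] at h3
    have h4 : (q a : ℤ) ∣ 1 := (mul_dvd_mul_iff_right (abs_ne_zero.2 h1)).1 (by rwa [one_mul])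
    have h5 : q a = 1 := Nat.dvd_one.1 (by exact_mod_cast h4)
    simp [h5]
  set Y := X.filter fun a => a = b ∨ (0 < a ∧ a ≠ -b) with hY
  have hYX : Y ⊆ X := filter_subset _ _
  have h1 := one_aux Y N hN (fun a ha => hX a (hYX ha))
    (fun a ha => by have := (mem_filter.1 ha).2; omega)
    (fun a ha c hc => hs a (hYX ha) c (hYX hc))
    (fun a ha c hc hac => by have := (mem_filter.1 ha).2; have := (mem_filter.1 hc).2; omega)
    (mem_filter.2 ⟨hb, Or.inl rfl⟩) q fun a ha hab =>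
      ⟨(hq a (hYX ha) hab).1, by rw [Int.gcd_comm, ← dvd_neg, neg_sub]; exact (hq a (hYX ha) hab).2⟩
  have h2 : #(X.filter (· ≤ 0)) ≤ 1 := card_le_one.2 fun a ha c hc => by
    by_contra hac
    have := (hs a (mem_filter.1 ha).1 c (mem_filter.1 hc).1 hac).nonneg
    have := (mem_filter.1 ha).2
    have := (mem_filter.1 hc).2
    omega
  have h3 : X.erase b \ Y.erase b ⊆ insert (-b) (X.filter (· ≤ 0)) := fun a ha => by
    simp only [mem_sdiff, mem_erase, hY, mem_filter, mem_insert] at ha ⊢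
    by_contra hn
    push Not at hn
    exact ha.2 ⟨ha.1.1, ha.1.2, Or.inr ⟨hn.2 ha.1.2, hn.1⟩⟩
  have h4 : #(X.erase b \ Y.erase b) ≤ 2 := by
    have := (card_le_card h3).trans (card_insert_le _ _)
    omega
  have h5 : ∑ a ∈ X.erase b \ Y.erase b, Real.log (q a) ≤
      #(X.erase b \ Y.erase b) • Real.log (2 * N) :=
    sum_le_card_nsmul _ _ _ fun a ha => by
      obtain ⟨a1, a2⟩ := mem_erase.1 (mem_sdiff.1 ha).1
      exact q_le a1 (hq _ a2 a1).1 (hq _ a2 a1).2 (diff_le hX hs a2 hb)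
  rw [← sum_sdiff (erase_subset_erase b hYX)]
  have h6 : √(#Y : ℝ) ≤ √(#X : ℝ) := Real.sqrt_le_sqrt (by exact_mod_cast card_le_card hYX)
  have h9 : (#(X.erase b \ Y.erase b) : ℝ) ≤ 2 := by exact_mod_cast h4
  rw [nsmul_eq_mul] at h5
  have hL3 := Real.log_nonneg (show (1 : ℝ) ≤ 2 * N by linarith)
  have := mul_le_mul_of_nonneg_right h9 hL3
  have := mul_le_mul h6 hL2 hL3 (Real.sqrt_nonneg _)
  have := mul_le_mul_of_nonneg_right t1 hL
  nlinarith

end Pool.Agent.MP_df75fe_nt.En
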